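import Mathlib

set_option autoImplicit false

/-! Exponential sums with a random real factor: mean squares. -/

namespace Pool.Agent.Run7.h927.WG
open MeasureTheory Finset Complex

noncomputable section

/-- `e(t) = exp(2 π i t)` -/
def e (t : ℝ) : ℂ := Complex.exp (2 * Real.pi * t * Complex.I)

lemma norm_e (t : ℝ) : ‖e t‖ = 1 := by
  unfold e
  rw [show 2 * (Real.pi : ℂ) * t * Complex.I = ((2 * Real.pi * t : ℝ) : ℂ) * Complex.I by push_cast; ring]
  exact Complex.norm_exp_ofReal_mul_I _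

lemma e_add (s t : ℝ) : e (s + t) = e s * e t := by
  unfold e
  rw [← Complex.exp_add]
  congr 1
  push_cast
  ring

lemma e_zero : e 0 = 1 := by
  unfold e
  simp

lemma e_conj (t : ℝ) : (starRingEnd ℂ) (e t) = e (-t) := by
  unfold e
  rw [← Complex.exp_conj]
  congr 1
  simp only [map_mul, Complex.conj_ofReal, Complex.conj_I, map_ofNat]
  push_cast
  ring

lemma cont_e : Continuous e := by
  unfold e
  fun_prop

lemma int_e (c : ℝ) (hc : c ≠ 0) (a b : ℝ) : ‖∫ t in a..b, e (c * t)‖ ≤ 1 / (Real.pi * |c|) := by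
  have h0 : (2 * Real.pi * c * Complex.I : ℂ) ≠ 0 := by
    have : (Real.pi : ℂ) ≠ 0 := by exact_mod_cast Real.pi_ne_zero
    have : (c : ℂ) ≠ 0 := by exact_mod_cast hc
    simp_all
  have h1 : ∀ t : ℝ, e (c * t) = Complex.exp ((2 * Real.pi * c * Complex.I : ℂ) * t) := by
    intro t
    unfold e
    congr 1
    push_cast
    ring
  have h2 : ∫ t in a..b, e (c * t) = ∫ t in a..b, Complex.exp ((2 * Real.pi * c * Complex.I : ℂ) * t) :=
    intervalIntegral.integral_congr fun t _ => h1 t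
  rw [h2, integral_exp_mul_complex h0, norm_div, ← h1, ← h1]
  have h3 : ‖(2 * Real.pi * c * Complex.I : ℂ)‖ = 2 * (Real.pi * |c|) := by
    simp only [norm_mul, Complex.norm_I, Complex.norm_real, Real.norm_eq_abs, abs_of_pos Real.pi_pos]
    norm_num
    ring
  rw [h3]
  have h4 : ‖e (c * b) - e (c * a)‖ ≤ 2 := by
    refine (norm_sub_le _ _).trans ?_
    rw [norm_e, norm_e]
    norm_num
  have h5 : 0 < Real.pi * |c| := by positivity
  calc ‖e (c * b) - e (c * a)‖ / (2 * (Real.pi * |c|)) ≤ 2 / (2 * (Real.pi * |c|)) := by gcongr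
    _ = 1 / (Real.pi * |c|) := by field_simp

/-- the sum of `e(θ t u(x))` over `x` in `X` -/
def S (X : Finset ℕ) (u : ℕ → ℝ) (θ t : ℝ) : ℂ := ∑ x ∈ X, e (θ * t * u x)

lemma norm_S (X : Finset ℕ) (u : ℕ → ℝ) (θ t : ℝ) : ‖S X u θ t‖ ≤ X.card := by
  unfold S
  refine (norm_sum_le _ _).trans ?_
  simp [norm_e]

lemma cont_S (X : Finset ℕ) (u : ℕ → ℝ) : Continuous (fun z : ℝ × ℝ => S X u z.1 z.2) := by
  unfold S
  refine continuous_finset_sum _ fun x _ => cont_e.comp ?_
  fun_prop

lemma sq_S (X : Finset ℕ) (u : ℕ → ℝ) (θ t : ℝ) :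
    ((‖S X u θ t‖ ^ 2 : ℝ) : ℂ) = ∑ x ∈ X, ∑ y ∈ X, e (θ * (u x - u y) * t) := by
  have h := Complex.mul_conj (S X u θ t)
  rw [Complex.normSq_eq_norm_sq] at h
  rw [← h]
  unfold S
  rw [map_sum, sum_mul_sum]
  refine sum_congr rfl fun x _ => sum_congr rfl fun y _ => ?_
  rw [e_conj, ← e_add]
  congr 1
  ring

/-- the sum of the reciprocals of the distances from a point -/
lemma dist_sum (X : Finset ℕ) (M : ℕ) (hX : X ⊆ Icc 1 M) (x : ℕ) (hx : x ∈ Icc 1 M) :
    ∑ y ∈ X.filter (fun y => y ≠ x), 1 / |(x : ℝ) - y| ≤ 2 * (1 + Real.log M) := by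
  have hM : ∑ d ∈ Icc 1 M, 1 / (d : ℝ) ≤ 1 + Real.log M := by
    have h := harmonic_le_one_add_log M
    rw [harmonic_eq_sum_Icc, Rat.cast_sum] at h
    refine le_trans (le_of_eq (sum_congr rfl fun d _ => ?_)) h
    push_cast
    rw [one_div]
  have h1 : ∑ y ∈ X.filter (fun y => y < x), 1 / |(x : ℝ) - y| ≤ ∑ d ∈ Icc 1 M, 1 / (d : ℝ) := by
    calc ∑ y ∈ X.filter (fun y => y < x), 1 / |(x : ℝ) - y|
        = ∑ y ∈ X.filter (fun y => y < x), 1 / ((x - y : ℕ) : ℝ) := by
          refine sum_congr rfl fun y hy => ?_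
          rw [mem_filter] at hy
          rw [Nat.cast_sub hy.2.le, abs_of_nonneg]
          have : (y : ℝ) ≤ x := by exact_mod_cast hy.2.le
          linarith
      _ = ∑ d ∈ (X.filter (fun y => y < x)).image (fun y => x - y), 1 / (d : ℝ) := by
          rw [sum_image]
          intro y hy z hz h
          rw [mem_coe, mem_filter] at hy hz
          simp only at h
          omega
      _ ≤ ∑ d ∈ Icc 1 M, 1 / (d : ℝ) := by
          refine sum_le_sum_of_subset_of_nonneg ?_ fun d _ _ => by positivity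
          intro d hd
          rw [mem_image] at hd
          obtain ⟨y, hy, rfl⟩ := hd
          rw [mem_filter] at hy
          rw [mem_Icc] at hx ⊢
          omega
  have h2 : ∑ y ∈ X.filter (fun y => x < y), 1 / |(x : ℝ) - y| ≤ ∑ d ∈ Icc 1 M, 1 / (d : ℝ) := by
    calc ∑ y ∈ X.filter (fun y => x < y), 1 / |(x : ℝ) - y|
        = ∑ y ∈ X.filter (fun y => x < y), 1 / ((y - x : ℕ) : ℝ) := by
          refine sum_congr rfl fun y hy => ?_
          rw [mem_filter] at hy
          rw [Nat.cast_sub hy.2.le, abs_sub_comm, abs_of_nonneg]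
          have : (x : ℝ) ≤ y := by exact_mod_cast hy.2.le
          linarith
      _ = ∑ d ∈ (X.filter (fun y => x < y)).image (fun y => y - x), 1 / (d : ℝ) := by
          rw [sum_image]
          intro y hy z hz h
          rw [mem_coe, mem_filter] at hy hz
          simp only at h
          omega
      _ ≤ ∑ d ∈ Icc 1 M, 1 / (d : ℝ) := by
          refine sum_le_sum_of_subset_of_nonneg ?_ fun d _ _ => by positivity
          intro d hd
          rw [mem_image] at hd
          obtain ⟨y, hy, rfl⟩ := hd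
          rw [mem_filter] at hy
          have := mem_Icc.1 (hX hy.1)
          rw [mem_Icc] at hx ⊢
          omega
  have h3 : X.filter (fun y => y ≠ x) = X.filter (fun y => y < x) ∪ X.filter (fun y => x < y) := by
    ext y
    simp only [mem_filter, mem_union]
    constructor
    · rintro ⟨h, h'⟩
      rcases lt_or_gt_of_ne h' with h'' | h''
      · exact Or.inl ⟨h, h''⟩
      · exact Or.inr ⟨h, h''⟩
    · rintro (⟨h, h'⟩ | ⟨h, h'⟩)
      · exact ⟨h, by omega⟩
      · exact ⟨h, by omega⟩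
  rw [h3, sum_union]
  · linarith
  · rw [disjoint_filter]
    intro y _ h1 h2
    omega

/-- the mean square -/
theorem mean_sq (X : Finset ℕ) (u : ℕ → ℝ) (M : ℕ) (hX : X ⊆ Icc 1 M) (κ : ℝ) (hκ : 0 < κ)
    (hu : ∀ x ∈ X, ∀ y ∈ X, κ * |(x : ℝ) - y| ≤ |u x - u y|) (θ : ℝ) (hθ : θ ≠ 0) (a b : ℝ) (hab : a ≤ b) :
    ∫ t in a..b, ‖S X u θ t‖ ^ 2 ≤ X.card * ((b - a) + 2 * (1 + Real.log M) / (Real.pi * |θ| * κ)) := by
  classical
  have hθ0 : 0 < |θ| := abs_pos.2 hθ
  have h1 : ((∫ t in a..b, ‖S X u θ t‖ ^ 2 : ℝ) : ℂ) =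
      ∑ x ∈ X, ∑ y ∈ X, ∫ t in a..b, e (θ * (u x - u y) * t) := by
    rw [← intervalIntegral.integral_ofReal]
    have hc : ∀ x y : ℕ, IntervalIntegrable (fun t => e (θ * (u x - u y) * t)) volume a b := fun x y =>
      (cont_e.comp (by fun_prop)).intervalIntegrable _ _
    calc ∫ t in a..b, ((‖S X u θ t‖ ^ 2 : ℝ) : ℂ) = ∫ t in a..b, ∑ x ∈ X, ∑ y ∈ X, e (θ * (u x - u y) * t) :=
          intervalIntegral.integral_congr fun t _ => sq_S X u θ t
      _ = ∑ x ∈ X, ∫ t in a..b, ∑ y ∈ X, e (θ * (u x - u y) * t) := by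
          refine intervalIntegral.integral_finset_sum fun x _ => ?_
          exact (continuous_finset_sum _ fun y _ => cont_e.comp (by fun_prop)).intervalIntegrable _ _
      _ = _ := sum_congr rfl fun x _ => intervalIntegral.integral_finset_sum fun y _ => hc x y
  have h0 : 0 ≤ ∫ t in a..b, ‖S X u θ t‖ ^ 2 := intervalIntegral.integral_nonneg hab fun t _ => by positivity
  have h2 : ∫ t in a..b, ‖S X u θ t‖ ^ 2 = ‖∑ x ∈ X, ∑ y ∈ X, ∫ t in a..b, e (θ * (u x - u y) * t)‖ := by
    rw [← h1, Complex.norm_real, Real.norm_eq_abs, abs_of_nonneg h0]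
  rw [h2]
  have h3 : ∀ x ∈ X, ‖∑ y ∈ X, ∫ t in a..b, e (θ * (u x - u y) * t)‖ ≤
      (b - a) + 2 * (1 + Real.log M) / (Real.pi * |θ| * κ) := by
    intro x hx
    have hxM := hX hx
    rw [← sum_filter_add_sum_filter_not X (fun y => y ≠ x)]
    have h4 : X.filter (fun y => ¬ y ≠ x) = {x} := by
      ext y
      simp only [mem_filter, ne_eq, not_not, mem_singleton]
      constructor
      · exact fun h => h.2
      · rintro rfl
        exact ⟨hx, rfl⟩
    rw [h4, sum_singleton]
    have h5 : ‖∫ t in a..b, e (θ * (u x - u x) * t)‖ ≤ b - a := by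
      have : ∀ t : ℝ, e (θ * (u x - u x) * t) = 1 := by
        intro t
        rw [sub_self, mul_zero, zero_mul, e_zero]
      simp only [this]
      rw [intervalIntegral.integral_const, norm_smul, norm_one, mul_one, Real.norm_eq_abs, abs_of_nonneg (by linarith)]
    have h6 : ‖∑ y ∈ X.filter (fun y => y ≠ x), ∫ t in a..b, e (θ * (u x - u y) * t)‖ ≤
        2 * (1 + Real.log M) / (Real.pi * |θ| * κ) := by
      calc ‖∑ y ∈ X.filter (fun y => y ≠ x), ∫ t in a..b, e (θ * (u x - u y) * t)‖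
          ≤ ∑ y ∈ X.filter (fun y => y ≠ x), ‖∫ t in a..b, e (θ * (u x - u y) * t)‖ := norm_sum_le _ _
        _ ≤ ∑ y ∈ X.filter (fun y => y ≠ x), (1 / |(x : ℝ) - y|) * (1 / (Real.pi * |θ| * κ)) := by
            refine sum_le_sum fun y hy => ?_
            rw [mem_filter] at hy
            have hne : (x : ℝ) - y ≠ 0 := by
              intro h
              apply hy.2
              have : (x : ℝ) = y := by linarith
              exact_mod_cast this.symm
            have hd : 0 < |(x : ℝ) - y| := abs_pos.2 hne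
            have hu1 := hu x hx y hy.1
            have hpos : 0 < |u x - u y| := lt_of_lt_of_le (by positivity) hu1
            have hc : θ * (u x - u y) ≠ 0 := mul_ne_zero hθ (abs_pos.1 hpos)
            refine (int_e _ hc a b).trans ?_
            rw [abs_mul, one_div_mul_one_div]
            apply one_div_le_one_div_of_le (by positivity)
            calc |(x : ℝ) - y| * (Real.pi * |θ| * κ) = Real.pi * (|θ| * (κ * |(x : ℝ) - y|)) := by ring
              _ ≤ Real.pi * (|θ| * |u x - u y|) := by gcongr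
        _ = (∑ y ∈ X.filter (fun y => y ≠ x), 1 / |(x : ℝ) - y|) * (1 / (Real.pi * |θ| * κ)) := by rw [sum_mul]
        _ ≤ (2 * (1 + Real.log M)) * (1 / (Real.pi * |θ| * κ)) :=
            mul_le_mul_of_nonneg_right (dist_sum X M hX x hxM) (by positivity)
        _ = _ := by rw [mul_one_div]
    refine (norm_add_le _ _).trans ?_
    linarith
  calc ‖∑ x ∈ X, ∑ y ∈ X, ∫ t in a..b, e (θ * (u x - u y) * t)‖
      ≤ ∑ x ∈ X, ‖∑ y ∈ X, ∫ t in a..b, e (θ * (u x - u y) * t)‖ := norm_sum_le _ _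
    _ ≤ ∑ _x ∈ X, ((b - a) + 2 * (1 + Real.log M) / (Real.pi * |θ| * κ)) := sum_le_sum h3
    _ = _ := by rw [sum_const, nsmul_eq_mul]

end

end Pool.Agent.Run7.h927.WG
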