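import Pool.Agent.Run7.h927.WG.A

set_option autoImplicit false

/-! Products of exponential sums with independent random real factors: means over the factors. -/

namespace Pool.Agent.Run7.h927.WG
open MeasureTheory Finset

noncomputable section

lemma cauchy (f : ℝ → ℝ) (hf : Continuous f) (a b : ℝ) (hab : a < b) :
    (∫ t in a..b, f t) ^ 2 ≤ (b - a) * ∫ t in a..b, f t ^ 2 := by
  obtain ⟨I, hI⟩ : ∃ I, I = ∫ t in a..b, f t := ⟨_, rfl⟩
  have hr : 0 < b - a := by linarith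
  obtain ⟨c, hc⟩ : ∃ c, c = I / (b - a) := ⟨_, rfl⟩
  have h1 : 0 ≤ ∫ t in a..b, (f t - c) ^ 2 := intervalIntegral.integral_nonneg hab.le fun t _ => sq_nonneg _
  have h2 : ∫ t in a..b, (f t - c) ^ 2 = (∫ t in a..b, f t ^ 2) - 2 * c * I + (b - a) * c ^ 2 := by
    have e1 : ∀ t : ℝ, (f t - c) ^ 2 = f t ^ 2 - 2 * c * f t + c ^ 2 := fun t => by ring
    simp only [e1]
    rw [intervalIntegral.integral_add, intervalIntegral.integral_sub, intervalIntegral.integral_const_mul,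
      intervalIntegral.integral_const, smul_eq_mul, hI]
    · exact (hf.pow 2).intervalIntegrable _ _
    · exact (continuous_const.mul hf).intervalIntegrable _ _
    · exact ((hf.pow 2).sub (continuous_const.mul hf)).intervalIntegrable _ _
    · exact intervalIntegrable_const
  rw [h2, hc] at h1
  rw [← hI]
  have h3 : (b - a) * (I / (b - a)) ^ 2 = I ^ 2 / (b - a) := by field_simp
  have h4 : 2 * (I / (b - a)) * I = 2 * (I ^ 2 / (b - a)) := by field_simp
  rw [h3, h4] at h1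
  have h5 : I ^ 2 / (b - a) ≤ ∫ t in a..b, f t ^ 2 := by linarith
  rw [div_le_iff₀ hr] at h5
  linarith

/-- the mean of the absolute value of the exponential sum -/
def U (X : Finset ℕ) (u : ℕ → ℝ) (a b θ : ℝ) : ℝ := ∫ t in a..b, ‖S X u θ t‖

lemma cont_S_right (X : Finset ℕ) (u : ℕ → ℝ) (θ : ℝ) : Continuous (fun t => S X u θ t) :=
  (cont_S X u).comp (continuous_const.prodMk continuous_id)

lemma U_nonneg (X : Finset ℕ) (u : ℕ → ℝ) {a b : ℝ} (hab : a < b) (θ : ℝ) : 0 ≤ U X u a b θ :=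
  intervalIntegral.integral_nonneg hab.le fun t _ => norm_nonneg _

lemma U_triv (X : Finset ℕ) (u : ℕ → ℝ) {a b : ℝ} (hab : a < b) (θ : ℝ) : U X u a b θ ≤ (b - a) * X.card := by
  unfold U
  calc ∫ t in a..b, ‖S X u θ t‖ ≤ ∫ _t in a..b, (X.card : ℝ) := by
        apply intervalIntegral.integral_mono_on hab.le
        · exact (cont_S_right X u θ).norm.intervalIntegrable _ _
        · exact intervalIntegrable_const
        · exact fun t _ => norm_S X u θ t
    _ = _ := by rw [intervalIntegral.integral_const, smul_eq_mul]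

lemma U_sq (X : Finset ℕ) (u : ℕ → ℝ) (M : ℕ) (hX : X ⊆ Icc 1 M) (κ : ℝ) (hκ : 0 < κ)
    (hu : ∀ x ∈ X, ∀ y ∈ X, κ * |(x : ℝ) - y| ≤ |u x - u y|) (θ : ℝ) (hθ : θ ≠ 0) {a b : ℝ} (hab : a < b) :
    U X u a b θ ^ 2 ≤ (b - a) * (X.card * ((b - a) + 2 * (1 + Real.log M) / (Real.pi * |θ| * κ))) := by
  unfold U
  refine (cauchy _ (cont_S_right X u θ).norm a b hab).trans ?_
  exact mul_le_mul_of_nonneg_left (mean_sq X u M hX κ hκ hu θ hθ a b hab.le) (by linarith)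

lemma U_big (X : Finset ℕ) (u : ℕ → ℝ) (M : ℕ) (hX : X ⊆ Icc 1 M) (κ : ℝ) (hκ : 0 < κ)
    (hu : ∀ x ∈ X, ∀ y ∈ X, κ * |(x : ℝ) - y| ≤ |u x - u y|) (θ : ℝ) (hθ : 1 ≤ |θ| * κ) {a b : ℝ} (hab : a < b) :
    U X u a b θ ≤ √((b - a) * (b - a + 1) * (1 + Real.log M) * X.card) := by
  have hθ0 : θ ≠ 0 := by
    rintro rfl
    rw [abs_zero, zero_mul] at hθ
    linarith
  have hθp : 0 < |θ| := abs_pos.2 hθ0
  have hL : 0 ≤ Real.log M := Real.log_natCast_nonneg M
  have hr : 0 < b - a := by linarith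
  have hT : (0 : ℝ) ≤ X.card := Nat.cast_nonneg _
  apply Real.le_sqrt_of_sq_le
  refine (U_sq X u M hX κ hκ hu θ hθ0 hab).trans ?_
  have h1 : 2 * (1 + Real.log M) / (Real.pi * |θ| * κ) ≤ 1 + Real.log M := by
    rw [div_le_iff₀ (by positivity)]
    have := Real.pi_gt_three
    have h2 : 2 ≤ Real.pi * |θ| * κ := by
      rw [mul_assoc]
      nlinarith
    nlinarith
  have h2 : (b - a) + 2 * (1 + Real.log M) / (Real.pi * |θ| * κ) ≤ (b - a + 1) * (1 + Real.log M) := by nlinarith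
  calc (b - a) * (X.card * ((b - a) + 2 * (1 + Real.log M) / (Real.pi * |θ| * κ)))
      ≤ (b - a) * (X.card * ((b - a + 1) * (1 + Real.log M))) := by gcongr
    _ = _ := by ring

lemma U_small (X : Finset ℕ) (u : ℕ → ℝ) (M : ℕ) (hX : X ⊆ Icc 1 M) (κ : ℝ) (hκ : 0 < κ)
    (hu : ∀ x ∈ X, ∀ y ∈ X, κ * |(x : ℝ) - y| ≤ |u x - u y|) (θ : ℝ) (hθ0 : θ ≠ 0) (hθ : |θ| * κ < 1)
    {a b : ℝ} (hab : a < b) :
    U X u a b θ ≤ √((b - a) * (b - a + 1) * (1 + Real.log M) / (|θ| * κ)) * √X.card := by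
  have hθp : 0 < |θ| := abs_pos.2 hθ0
  have hL : 0 ≤ Real.log M := Real.log_natCast_nonneg M
  have hr : 0 < b - a := by linarith
  have hT : (0 : ℝ) ≤ X.card := Nat.cast_nonneg _
  have hc : 0 < |θ| * κ := by positivity
  rw [← Real.sqrt_mul (by positivity)]
  apply Real.le_sqrt_of_sq_le
  refine (U_sq X u M hX κ hκ hu θ hθ0 hab).trans ?_
  have h1 : 2 * (1 + Real.log M) / (Real.pi * |θ| * κ) ≤ (1 + Real.log M) / (|θ| * κ) := by
    rw [div_le_div_iff₀ (by positivity) hc]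
    have := Real.pi_gt_three
    have h3 : 0 ≤ (1 + Real.log M) * (|θ| * κ) := by positivity
    nlinarith
  have h2 : b - a ≤ (b - a) * ((1 + Real.log M) / (|θ| * κ)) := by
    have : 1 ≤ (1 + Real.log M) / (|θ| * κ) := by
      rw [one_le_div hc]
      linarith
    nlinarith
  calc (b - a) * (X.card * ((b - a) + 2 * (1 + Real.log M) / (Real.pi * |θ| * κ)))
      ≤ (b - a) * (X.card * ((b - a) * ((1 + Real.log M) / (|θ| * κ)) + (1 + Real.log M) / (|θ| * κ))) := by gcongr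
    _ = _ := by ring

/-- the weight of the frequencies -/
def w (η Y θ : ℝ) : ℝ := Real.exp (-(Real.pi * η ^ 2) * θ ^ 2) - Real.exp (-(Real.pi * Y ^ 2) * θ ^ 2)

lemma w_le (η Y θ : ℝ) : w η Y θ ≤ Real.exp (-(Real.pi * η ^ 2) * θ ^ 2) := by
  unfold w
  linarith [Real.exp_pos (-(Real.pi * Y ^ 2) * θ ^ 2)]

lemma w_nonneg {η Y : ℝ} (hη : 0 < η) (hY : η ≤ Y) (θ : ℝ) : 0 ≤ w η Y θ := by
  unfold w
  rw [sub_nonneg, Real.exp_le_exp]
  have h1 : η ^ 2 ≤ Y ^ 2 := pow_le_pow_left₀ hη.le hY 2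
  have := Real.pi_pos
  nlinarith [mul_le_mul_of_nonneg_left h1 this.le, sq_nonneg θ, mul_nonneg (sub_nonneg.2 (mul_le_mul_of_nonneg_left h1 this.le)) (sq_nonneg θ)]

lemma w_le' {η Y : ℝ} (hη : 0 < η) (hY : η ≤ Y) (θ : ℝ) : w η Y θ ≤ Real.pi * Y ^ 2 * θ ^ 2 := by
  unfold w
  have h1 : Real.exp (-(Real.pi * η ^ 2) * θ ^ 2) ≤ 1 := by
    rw [← Real.exp_zero, Real.exp_le_exp]
    have := Real.pi_pos
    nlinarith [mul_nonneg (mul_nonneg this.le (sq_nonneg η)) (sq_nonneg θ)]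
  have h2 := Real.add_one_le_exp (-(Real.pi * Y ^ 2) * θ ^ 2)
  linarith

lemma cont_w (η Y : ℝ) : Continuous (w η Y) := by
  unfold w
  fun_prop

lemma int_gauss {η : ℝ} (hη : 0 < η) : Integrable (fun θ : ℝ => Real.exp (-(Real.pi * η ^ 2) * θ ^ 2)) :=
  integrable_exp_neg_mul_sq (by positivity)

lemma val_gauss {η : ℝ} (hη : 0 < η) : ∫ θ : ℝ, Real.exp (-(Real.pi * η ^ 2) * θ ^ 2) = 1 / η := by
  rw [integral_gaussian]
  rw [show Real.pi / (Real.pi * η ^ 2) = (1 / η) ^ 2 by field_simp]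
  exact Real.sqrt_sq (by positivity)

lemma int_w {η Y : ℝ} (hη : 0 < η) (hY : η ≤ Y) : Integrable (w η Y) :=
  (int_gauss hη).sub (int_gauss (hη.trans_le hY))

variable {s : ℕ}

/-- the integral over the frequencies -/
def Q (X : Fin s → Finset ℕ) (u : Fin s → ℕ → ℝ) (η Y : ℝ) (α : Fin s → ℝ) : ℝ :=
  ∫ θ, w η Y θ * ∏ i, ‖S (X i) (u i) θ (α i)‖

/-- the uniform measure on the box -/
def box (s : ℕ) (a b : ℝ) : Measure (Fin s → ℝ) := Measure.pi (fun _ => volume.restrict (Set.Icc a b))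

instance (s : ℕ) (a b : ℝ) : IsFiniteMeasure (box s a b) := by
  unfold box
  infer_instance

lemma box_eq (s : ℕ) (a b : ℝ) : box s a b = volume.restrict (Set.pi Set.univ fun _ => Set.Icc a b) := by
  unfold box
  rw [volume_pi, Measure.restrict_pi_pi]

lemma int_F (X : Fin s → Finset ℕ) (u : Fin s → ℕ → ℝ) {η Y : ℝ} (hη : 0 < η) (hY : η ≤ Y) (a b : ℝ) :
    Integrable (fun z : (Fin s → ℝ) × ℝ => w η Y z.2 * ∏ i, ‖S (X i) (u i) z.2 (z.1 i)‖) ((box s a b).prod volume) := by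
  have h1 : Integrable (fun z : (Fin s → ℝ) × ℝ => (∏ i, ((X i).card : ℝ)) * w η Y z.2) ((box s a b).prod volume) :=
    Integrable.mul_prod (f := fun _ : Fin s → ℝ => ∏ i, ((X i).card : ℝ)) (integrable_const _) (int_w hη hY)
  refine h1.mono' ?_ ?_
  · apply Continuous.aestronglyMeasurable
    refine ((cont_w η Y).comp continuous_snd).mul (continuous_finset_prod _ fun i _ => ?_)
    exact ((cont_S (X i) (u i)).comp (continuous_snd.prodMk ((continuous_apply i).comp continuous_fst))).norm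
  · refine Filter.Eventually.of_forall fun z => ?_
    have h2 := w_nonneg hη hY z.2
    rw [norm_mul, Real.norm_eq_abs, abs_of_nonneg h2, Real.norm_eq_abs,
      abs_of_nonneg (prod_nonneg fun i _ => norm_nonneg _), mul_comm]
    exact mul_le_mul_of_nonneg_right (prod_le_prod (fun i _ => norm_nonneg _) fun i _ => norm_S _ _ _ _) h2

lemma int_Q (X : Fin s → Finset ℕ) (u : Fin s → ℕ → ℝ) {η Y : ℝ} (hη : 0 < η) (hY : η ≤ Y) (a b : ℝ) :
    Integrable (Q X u η Y) (box s a b) :=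
  (int_F X u hη hY a b).integral_prod_left

lemma Q_nonneg (X : Fin s → Finset ℕ) (u : Fin s → ℕ → ℝ) {η Y : ℝ} (hη : 0 < η) (hY : η ≤ Y) (α : Fin s → ℝ) :
    0 ≤ Q X u η Y α :=
  integral_nonneg fun θ => mul_nonneg (w_nonneg hη hY θ) (prod_nonneg fun i _ => norm_nonneg _)

lemma mean_Q (X : Fin s → Finset ℕ) (u : Fin s → ℕ → ℝ) {η Y : ℝ} (hη : 0 < η) (hY : η ≤ Y) {a b : ℝ} (hab : a < b) :
    ∫ α, Q X u η Y α ∂(box s a b) = ∫ θ, w η Y θ * ∏ i, U (X i) (u i) a b θ ∧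
      Integrable (fun θ => w η Y θ * ∏ i, U (X i) (u i) a b θ) := by
  have h1 : ∀ θ : ℝ, ∫ α, w η Y θ * ∏ i, ‖S (X i) (u i) θ (α i)‖ ∂(box s a b) =
      w η Y θ * ∏ i, U (X i) (u i) a b θ := by
    intro θ
    rw [integral_const_mul]
    congr 1
    unfold box
    rw [integral_fintype_prod_eq_prod (𝕜 := ℝ) (fun i t => ‖S (X i) (u i) θ t‖)]
    refine prod_congr rfl fun i _ => ?_
    unfold U
    rw [intervalIntegral.integral_of_le hab.le, integral_Icc_eq_integral_Ioc]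
  constructor
  · unfold Q
    rw [integral_integral_swap (int_F X u hη hY a b)]
    exact integral_congr_ae (Filter.Eventually.of_forall h1)
  · exact (int_F X u hη hY a b).integral_prod_right.congr (Filter.Eventually.of_forall h1)

end

end Pool.Agent.Run7.h927.WG
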