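import Pool.Agent.Run7.h927.WG.B

set_option autoImplicit false

/-! The number of the solutions with Gaussian weights: comparison of two scales. -/

namespace Pool.Agent.Run7.h927.WG
open MeasureTheory Finset

noncomputable section

/-- the bound for the mean -/
theorem mean_bound (m : ℕ) (X : Fin (4 + m) → Finset ℕ) (u : Fin (4 + m) → ℕ → ℝ) (M : ℕ) (hX : ∀ i, X i ⊆ Icc 1 M)
    (κ : ℝ) (hκ : 0 < κ) (hu : ∀ i, ∀ x ∈ X i, ∀ y ∈ X i, κ * |(x : ℝ) - y| ≤ |u i x - u i y|)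
    {η Y : ℝ} (hη : 0 < η) (hY : η ≤ Y) {a b : ℝ} (hab : a < b) (c₀ : ℝ)
    (hc₀ : c₀ = (b - a) * (b - a + 1) * (1 + Real.log M)) :
    ∫ α, Q X u η Y α ∂(box (4 + m) a b) ≤ 1 / η * ∏ i, √(c₀ * (X i).card) +
      2 / κ * (Real.pi * Y ^ 2 * c₀ ^ 2 / κ ^ 2 * ((∏ i : Fin 4, √((X (Fin.castAdd m i)).card : ℝ)) *
        ∏ j : Fin m, ((b - a) * (X (Fin.natAdd 4 j)).card))) := by
  have hL : 0 ≤ Real.log M := Real.log_natCast_nonneg M
  have hr : 0 < b - a := by linarith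
  have hc0 : 0 < c₀ := by rw [hc₀]; positivity
  have hpi := Real.pi_pos
  obtain ⟨A, hA⟩ : ∃ A, A = ∏ i, √(c₀ * (X i).card) := ⟨_, rfl⟩
  obtain ⟨P₄, hP₄⟩ : ∃ P₄, P₄ = (∏ i : Fin 4, √((X (Fin.castAdd m i)).card : ℝ)) *
        ∏ j : Fin m, ((b - a) * (X (Fin.natAdd 4 j)).card) := ⟨_, rfl⟩
  have hA0 : 0 ≤ A := by rw [hA]; positivity
  have hP0 : 0 ≤ P₄ := by
    rw [hP₄]
    exact mul_nonneg (by positivity) (prod_nonneg fun j _ => mul_nonneg hr.le (Nat.cast_nonneg _))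
  rw [← hA, ← hP₄]
  obtain ⟨B, hB⟩ : ∃ B, B = Real.pi * Y ^ 2 * c₀ ^ 2 / κ ^ 2 * P₄ := ⟨_, rfl⟩
  have hB0 : 0 ≤ B := by rw [hB]; positivity
  rw [← hB]
  obtain ⟨h1, h2⟩ := mean_Q X u hη hY hab
  rw [h1]
  obtain ⟨I, hI⟩ : ∃ I : Set ℝ, I = Set.Icc (-(1 / κ)) (1 / κ) := ⟨_, rfl⟩
  have hIm : MeasurableSet I := by rw [hI]; exact measurableSet_Icc
  have hIv : volume I = ENNReal.ofReal (2 / κ) := by
    rw [hI, Real.volume_Icc]
    congr 1
    ring
  have h3 : ∀ θ : ℝ, θ ≠ 0 → w η Y θ * ∏ i, U (X i) (u i) a b θ ≤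
      Real.exp (-(Real.pi * η ^ 2) * θ ^ 2) * A + I.indicator (fun _ => B) θ := by
    intro θ hθ
    have hθp : 0 < |θ| := abs_pos.2 hθ
    have hw := w_nonneg hη hY θ
    have hU0 : 0 ≤ ∏ i, U (X i) (u i) a b θ := prod_nonneg fun i _ => U_nonneg _ _ hab _
    have hind : 0 ≤ I.indicator (fun _ => B) θ := Set.indicator_nonneg (fun _ _ => hB0) _
    by_cases hbig : 1 ≤ |θ| * κ
    · have h4 : ∏ i, U (X i) (u i) a b θ ≤ A := by
        rw [hA]
        refine prod_le_prod (fun i _ => U_nonneg _ _ hab _) fun i _ => ?_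
        rw [hc₀]
        exact U_big (X i) (u i) M (hX i) κ hκ (hu i) θ hbig hab
      have h5 := w_le η Y θ
      calc w η Y θ * ∏ i, U (X i) (u i) a b θ ≤ Real.exp (-(Real.pi * η ^ 2) * θ ^ 2) * A :=
            mul_le_mul h5 h4 hU0 (Real.exp_pos _).le
        _ ≤ _ := by linarith
    · have hlt : |θ| * κ < 1 := not_le.1 hbig
      have hθI : θ ∈ I := by
        rw [hI, Set.mem_Icc, ← abs_le, le_div_iff₀ hκ]
        exact hlt.le
      rw [Set.indicator_of_mem hθI]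
      have hck : 0 < |θ| * κ := by positivity
      have h4 : ∏ i, U (X i) (u i) a b θ ≤ (c₀ / (|θ| * κ)) ^ 2 * P₄ := by
        rw [Fin.prod_univ_add, hP₄, ← mul_assoc]
        refine mul_le_mul ?_ ?_ (prod_nonneg fun i _ => U_nonneg _ _ hab _) (by positivity)
        · calc ∏ i : Fin 4, U (X (Fin.castAdd m i)) (u (Fin.castAdd m i)) a b θ
              ≤ ∏ i : Fin 4, (√(c₀ / (|θ| * κ)) * √((X (Fin.castAdd m i)).card : ℝ)) := by
                refine prod_le_prod (fun i _ => U_nonneg _ _ hab _) fun i _ => ?_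
                rw [hc₀]
                exact U_small _ _ M (hX _) κ hκ (hu _) θ hθ hlt hab
            _ = (c₀ / (|θ| * κ)) ^ 2 * ∏ i : Fin 4, √((X (Fin.castAdd m i)).card : ℝ) := by
                rw [prod_mul_distrib, prod_const, card_univ, Fintype.card_fin]
                congr 1
                have h6 : √(c₀ / (|θ| * κ)) ^ 2 = c₀ / (|θ| * κ) := Real.sq_sqrt (by positivity)
                calc √(c₀ / (|θ| * κ)) ^ 4 = (√(c₀ / (|θ| * κ)) ^ 2) ^ 2 := by ring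
                  _ = _ := by rw [h6]
        · exact prod_le_prod (fun i _ => U_nonneg _ _ hab _) fun i _ => U_triv _ _ hab _
      have h5 := w_le' hη hY θ
      have h6 : w η Y θ * ∏ i, U (X i) (u i) a b θ ≤ B := by
        calc w η Y θ * ∏ i, U (X i) (u i) a b θ ≤ (Real.pi * Y ^ 2 * θ ^ 2) * ((c₀ / (|θ| * κ)) ^ 2 * P₄) :=
              mul_le_mul h5 h4 hU0 (by positivity)
          _ = B := by
              rw [hB]
              have : θ ^ 2 = |θ| ^ 2 := (sq_abs θ).symm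
              rw [this]
              field_simp
      have h7 : 0 ≤ Real.exp (-(Real.pi * η ^ 2) * θ ^ 2) * A := mul_nonneg (Real.exp_pos _).le hA0
      linarith
  have hi1 : Integrable (fun θ : ℝ => Real.exp (-(Real.pi * η ^ 2) * θ ^ 2) * A) := (int_gauss hη).mul_const A
  have hi2 : Integrable (I.indicator (fun _ : ℝ => B)) := by
    rw [integrable_indicator_iff hIm]
    exact integrableOn_const (by rw [hIv]; exact ENNReal.ofReal_ne_top)
  have h8 : ∀ᵐ θ : ℝ, w η Y θ * ∏ i, U (X i) (u i) a b θ ≤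
      Real.exp (-(Real.pi * η ^ 2) * θ ^ 2) * A + I.indicator (fun _ => B) θ := by
    have : ∀ᵐ θ : ℝ, θ ≠ 0 := by
      rw [ae_iff]
      simp
    filter_upwards [this] with θ hθ
    exact h3 θ hθ
  refine (integral_mono_ae h2 (hi1.add hi2) h8).trans (le_of_eq ?_)
  have h9 : ∫ θ : ℝ, (Real.exp (-(Real.pi * η ^ 2) * θ ^ 2) * A + I.indicator (fun _ => B) θ) =
      1 / η * A + 2 / κ * B := by
    rw [integral_add hi1 hi2, integral_mul_const, val_gauss hη, integral_indicator_const _ hIm, smul_eq_mul]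
    congr 2
    rw [measureReal_def, hIv, ENNReal.toReal_ofReal (by positivity)]
  exact h9

open Complex in
lemma gauss_id {η : ℝ} (hη : 0 < η) (v : ℝ) :
    ((Real.exp (-Real.pi * (v / η) ^ 2) : ℝ) : ℂ) =
      η * ∫ θ : ℝ, ((Real.exp (-(Real.pi * η ^ 2) * θ ^ 2) : ℝ) : ℂ) * e (θ * v) := by
  have hpi := Real.pi_pos
  have hb : 0 < (((Real.pi * η ^ 2 : ℝ) : ℂ)).re := by
    rw [Complex.ofReal_re]
    positivity
  have h := fourierIntegral_gaussian hb ((2 * Real.pi * v : ℝ) : ℂ)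
  have h1 : ∫ θ : ℝ, ((Real.exp (-(Real.pi * η ^ 2) * θ ^ 2) : ℝ) : ℂ) * e (θ * v) =
      ∫ x : ℝ, cexp (I * ((2 * Real.pi * v : ℝ) : ℂ) * x) * cexp (-((Real.pi * η ^ 2 : ℝ) : ℂ) * x ^ 2) := by
    refine integral_congr_ae (Filter.Eventually.of_forall fun θ => ?_)
    simp only
    rw [mul_comm]
    unfold e
    congr 1
    · congr 1
      push_cast
      ring
    · rw [Complex.ofReal_exp]
      congr 1
      push_cast
      ring
  rw [h1, h]
  have h2 : ((Real.pi : ℂ) / ((Real.pi * η ^ 2 : ℝ) : ℂ)) ^ (1 / 2 : ℂ) = ((1 / η : ℝ) : ℂ) := by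
    have e1 : (Real.pi : ℂ) / ((Real.pi * η ^ 2 : ℝ) : ℂ) = (((1 / η) ^ 2 : ℝ) : ℂ) := by
      rw [← Complex.ofReal_div]
      congr 1
      field_simp
    rw [e1, show (1 / 2 : ℂ) = (((1 / 2 : ℝ)) : ℂ) by push_cast; ring, ← Complex.ofReal_cpow (by positivity),
      ← Real.sqrt_eq_rpow, Real.sqrt_sq (by positivity)]
  rw [h2, Complex.ofReal_exp, ← mul_assoc]
  have h3 : (η : ℂ) * ((1 / η : ℝ) : ℂ) = 1 := by
    rw [← Complex.ofReal_mul]
    rw [mul_one_div_cancel hη.ne']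
    simp
  rw [h3, one_mul]
  congr 1
  rw [← Complex.ofReal_pow, ← Complex.ofReal_neg]
  have h4 : (4 : ℂ) * ((Real.pi * η ^ 2 : ℝ) : ℂ) = ((4 * (Real.pi * η ^ 2) : ℝ) : ℂ) := by push_cast; ring
  rw [h4, ← Complex.ofReal_div]
  congr 1
  field_simp
  ring

variable {s : ℕ}

/-- the value of the form -/
def L (u : Fin s → ℕ → ℝ) (α : Fin s → ℝ) (x : Fin s → ℕ) : ℝ := ∑ i, α i * u i (x i)

/-- the number of the solutions, with Gaussian weights -/
def N (X : Fin s → Finset ℕ) (u : Fin s → ℕ → ℝ) (η : ℝ) (α : Fin s → ℝ) (ν : ℝ) : ℝ :=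
  ∑ x ∈ Fintype.piFinset X, Real.exp (-Real.pi * ((L u α x - ν) / η) ^ 2)

lemma e_sum {ι : Type} (I : Finset ι) (f : ι → ℝ) : ∏ i ∈ I, e (f i) = e (∑ i ∈ I, f i) := by
  classical
  induction I using Finset.induction_on with
  | empty => simp [e_zero]
  | insert a I ha ih => rw [prod_insert ha, sum_insert ha, e_add, ih]

lemma prod_S (X : Fin s → Finset ℕ) (u : Fin s → ℕ → ℝ) (θ : ℝ) (α : Fin s → ℝ) :
    ∏ i, S (X i) (u i) θ (α i) = ∑ x ∈ Fintype.piFinset X, e (θ * L u α x) := by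
  unfold S
  rw [prod_univ_sum]
  refine sum_congr rfl fun x _ => ?_
  rw [e_sum]
  congr 1
  unfold L
  rw [mul_sum]
  exact sum_congr rfl fun i _ => by ring

lemma int_ge {η : ℝ} (hη : 0 < η) (v : ℝ) :
    Integrable (fun θ : ℝ => ((Real.exp (-(Real.pi * η ^ 2) * θ ^ 2) : ℝ) : ℂ) * e (θ * v)) := by
  refine (int_gauss hη).mono' ?_ ?_
  · apply Continuous.aestronglyMeasurable
    refine Continuous.mul (Complex.continuous_ofReal.comp (by fun_prop)) (cont_e.comp (by fun_prop))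
  · refine Filter.Eventually.of_forall fun θ => ?_
    rw [norm_mul, norm_e, mul_one, Complex.norm_real, Real.norm_eq_abs, abs_of_pos (Real.exp_pos _)]

lemma N_int (X : Fin s → Finset ℕ) (u : Fin s → ℕ → ℝ) {η : ℝ} (hη : 0 < η) (α : Fin s → ℝ) (ν : ℝ) :
    ((N X u η α ν : ℝ) : ℂ) = η * ∫ θ : ℝ, ((Real.exp (-(Real.pi * η ^ 2) * θ ^ 2) : ℝ) : ℂ) *
      (e (-(θ * ν)) * ∏ i, S (X i) (u i) θ (α i)) := by
  unfold N
  rw [Complex.ofReal_sum]
  have h1 : ∀ θ : ℝ, ((Real.exp (-(Real.pi * η ^ 2) * θ ^ 2) : ℝ) : ℂ) *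
      (e (-(θ * ν)) * ∏ i, S (X i) (u i) θ (α i)) =
      ∑ x ∈ Fintype.piFinset X, ((Real.exp (-(Real.pi * η ^ 2) * θ ^ 2) : ℝ) : ℂ) * e (θ * (L u α x - ν)) := by
    intro θ
    rw [prod_S, mul_sum, mul_sum]
    refine sum_congr rfl fun x _ => ?_
    rw [← e_add]
    congr 2
    ring
  simp only [h1]
  rw [integral_finsetSum _ fun x _ => int_ge hη _, mul_sum]
  exact sum_congr rfl fun x _ => gauss_id hη _

/-- comparison of two scales -/
theorem compare (X : Fin s → Finset ℕ) (u : Fin s → ℕ → ℝ) {η Y : ℝ} (hη : 0 < η) (hY : η ≤ Y) (α : Fin s → ℝ) (ν : ℝ) :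
    |N X u η α ν - η / Y * N X u Y α ν| ≤ η * Q X u η Y α := by
  have hY0 : 0 < Y := hη.trans_le hY
  have hcont : Continuous (fun θ : ℝ => e (-(θ * ν)) * ∏ i, S (X i) (u i) θ (α i)) := by
    refine Continuous.mul (cont_e.comp (by fun_prop)) (continuous_finset_prod _ fun i _ => ?_)
    exact (cont_S (X i) (u i)).comp (continuous_id.prodMk continuous_const)
  have hnorm : ∀ θ : ℝ, ‖e (-(θ * ν)) * ∏ i, S (X i) (u i) θ (α i)‖ = ∏ i, ‖S (X i) (u i) θ (α i)‖ := by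
    intro θ
    rw [norm_mul, norm_e, one_mul, norm_prod]
  have hbd : ∀ θ : ℝ, ‖e (-(θ * ν)) * ∏ i, S (X i) (u i) θ (α i)‖ ≤ ∏ i, ((X i).card : ℝ) := by
    intro θ
    rw [hnorm]
    exact prod_le_prod (fun i _ => norm_nonneg _) fun i _ => norm_S _ _ _ _
  have hint : ∀ t : ℝ, 0 < t → Integrable (fun θ : ℝ => ((Real.exp (-(Real.pi * t ^ 2) * θ ^ 2) : ℝ) : ℂ) *
      (e (-(θ * ν)) * ∏ i, S (X i) (u i) θ (α i))) := by
    intro t ht
    refine ((int_gauss ht).mul_const (∏ i, ((X i).card : ℝ))).mono' ?_ ?_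
    · apply Continuous.aestronglyMeasurable
      exact Continuous.mul (Complex.continuous_ofReal.comp (by fun_prop)) hcont
    · refine Filter.Eventually.of_forall fun θ => ?_
      rw [norm_mul, Complex.norm_real, Real.norm_eq_abs, abs_of_pos (Real.exp_pos _)]
      exact mul_le_mul_of_nonneg_left (hbd θ) (Real.exp_pos _).le
  have h1 : (((N X u η α ν - η / Y * N X u Y α ν : ℝ)) : ℂ) =
      η * ∫ θ : ℝ, ((w η Y θ : ℝ) : ℂ) * (e (-(θ * ν)) * ∏ i, S (X i) (u i) θ (α i)) := by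
    rw [Complex.ofReal_sub, Complex.ofReal_mul, N_int X u hη α ν, N_int X u hY0 α ν]
    have h2 : ((η / Y : ℝ) : ℂ) * (Y * ∫ θ : ℝ, ((Real.exp (-(Real.pi * Y ^ 2) * θ ^ 2) : ℝ) : ℂ) *
        (e (-(θ * ν)) * ∏ i, S (X i) (u i) θ (α i))) =
        η * ∫ θ : ℝ, ((Real.exp (-(Real.pi * Y ^ 2) * θ ^ 2) : ℝ) : ℂ) *
        (e (-(θ * ν)) * ∏ i, S (X i) (u i) θ (α i)) := by
      rw [← mul_assoc]
      congr 1
      have : (Y : ℂ) ≠ 0 := by exact_mod_cast hY0.ne'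
      push_cast
      field_simp
    rw [h2, ← mul_sub, ← integral_sub (hint η hη) (hint Y hY0)]
    congr 1
    refine integral_congr_ae (Filter.Eventually.of_forall fun θ => ?_)
    simp only
    unfold w
    push_cast
    ring
  have h3 : |N X u η α ν - η / Y * N X u Y α ν| = ‖(((N X u η α ν - η / Y * N X u Y α ν : ℝ)) : ℂ)‖ := by
    rw [Complex.norm_real, Real.norm_eq_abs]
  rw [h3, h1, norm_mul, Complex.norm_real, Real.norm_eq_abs, abs_of_pos hη]
  refine mul_le_mul_of_nonneg_left ?_ hη.le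
  refine (norm_integral_le_integral_norm _).trans (le_of_eq ?_)
  unfold Q
  refine integral_congr_ae (Filter.Eventually.of_forall fun θ => ?_)
  simp only
  rw [norm_mul, hnorm, Complex.norm_real, Real.norm_eq_abs, abs_of_nonneg (w_nonneg hη hY θ)]

end

end Pool.Agent.Run7.h927.WG
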