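import Pool.Agent.Run7.h927.WG.C

set_option autoImplicit false

/-! The greedy choice of the first variable; the number of the solutions at the wide scale. -/

namespace Pool.Agent.Run7.h927.WG
open MeasureTheory Finset

noncomputable section

lemma pow_diff_ge (j : ℕ) (x y : ℝ) (hy : 0 ≤ y) (h : y ≤ x) : x ^ j * (x - y) ≤ x ^ (j + 1) - y ^ (j + 1) := by
  have h1 : y ^ j ≤ x ^ j := pow_le_pow_left₀ hy h j
  have h2 : y * y ^ j ≤ y * x ^ j := mul_le_mul_of_nonneg_left h1 hy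
  rw [pow_succ, pow_succ]
  nlinarith

lemma pow_spacing (k : ℕ) (hk : 1 ≤ k) (P x y : ℕ) (hx : P ≤ x) (hy : P ≤ y) :
    (P : ℝ) ^ (k - 1) * |(x : ℝ) - y| ≤ |(x : ℝ) ^ k - (y : ℝ) ^ k| := by
  wlog h : y ≤ x generalizing x y with H
  · rw [abs_sub_comm, abs_sub_comm ((x : ℝ) ^ k)]
    exact H y x hy hx (by omega)
  · obtain ⟨j, rfl⟩ : ∃ j, k = j + 1 := ⟨k - 1, by omega⟩
    have h1 : (y : ℝ) ≤ x := by exact_mod_cast h
    have h2 : (y : ℝ) ^ (j + 1) ≤ (x : ℝ) ^ (j + 1) := pow_le_pow_left₀ (Nat.cast_nonneg y) h1 _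
    rw [abs_of_nonneg (by linarith), abs_of_nonneg (by linarith), Nat.add_sub_cancel]
    refine le_trans ?_ (pow_diff_ge j x y (Nat.cast_nonneg y) h1)
    have h3 : (P : ℝ) ^ j ≤ (x : ℝ) ^ j := pow_le_pow_left₀ (Nat.cast_nonneg P) (by exact_mod_cast hx) _
    exact mul_le_mul_of_nonneg_right h3 (by linarith)

lemma pow_diff_le (k : ℕ) (x : ℝ) (hx : 0 ≤ x) : (x + 1) ^ k - x ^ k ≤ k * (x + 1) ^ (k - 1) := by
  induction k with
  | zero => simp
  | succ j ih =>
    rw [Nat.add_sub_cancel]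
    rcases Nat.eq_zero_or_pos j with rfl | hj
    · simp
    · have h1 : (x + 1) ^ j = (x + 1) * (x + 1) ^ (j - 1) := by
        rw [← pow_succ']
        congr 1
        omega
      have h2 : 0 ≤ (j : ℝ) * (x + 1) ^ (j - 1) := by positivity
      have h3 : x * ((x + 1) ^ j - x ^ j) ≤ x * (j * (x + 1) ^ (j - 1)) := mul_le_mul_of_nonneg_left ih hx
      calc (x + 1) ^ (j + 1) - x ^ (j + 1) = (x + 1) ^ j + x * ((x + 1) ^ j - x ^ j) := by ring
        _ ≤ (x + 1) ^ j + x * (j * (x + 1) ^ (j - 1)) := by linarith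
        _ ≤ (x + 1) ^ j + (x + 1) * (j * (x + 1) ^ (j - 1)) := by nlinarith
        _ = ((j + 1 : ℕ) : ℝ) * (x + 1) ^ j := by
            rw [h1]
            push_cast
            ring

/-- the greedy choice -/
lemma greedy (k : ℕ) (P C : ℕ) (α b v : ℝ) (hα : 0 < α) (hb : α ≤ b)
    (h1 : b * ((P + 1 : ℕ) : ℝ) ^ k ≤ v) (h2 : v < α * ((C * P : ℕ) : ℝ) ^ k) :
    ∃ x ∈ Ioc P (C * P), |α * (x : ℝ) ^ k - v| ≤ b * k * ((C * P : ℕ) : ℝ) ^ (k - 1) := by
  classical
  have h1' : α * ((P + 1 : ℕ) : ℝ) ^ k ≤ v := by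
    refine le_trans ?_ h1
    exact mul_le_mul_of_nonneg_right hb (by positivity)
  have hlt : P + 1 ≤ C * P := by
    by_contra h
    have : ((C * P : ℕ) : ℝ) ^ k ≤ ((P + 1 : ℕ) : ℝ) ^ k :=
      pow_le_pow_left₀ (Nat.cast_nonneg _) (by exact_mod_cast (by omega : C * P ≤ P + 1)) k
    have := mul_le_mul_of_nonneg_left this hα.le
    linarith
  obtain ⟨x, hx⟩ : ∃ x, x = Nat.findGreatest (fun x : ℕ => α * (x : ℝ) ^ k ≤ v) (C * P) := ⟨_, rfl⟩
  have hx1 : α * (x : ℝ) ^ k ≤ v := by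
    have := Nat.findGreatest_spec (P := fun x : ℕ => α * (x : ℝ) ^ k ≤ v) hlt h1'
    rw [← hx] at this
    exact this
  have hx2 : P + 1 ≤ x := by
    rw [hx]
    exact Nat.le_findGreatest hlt h1'
  have hx3 : x ≤ C * P := by
    rw [hx]
    exact Nat.findGreatest_le _
  have hx4 : x ≠ C * P := by
    intro h
    rw [h] at hx1
    linarith
  have hx5 : v < α * ((x + 1 : ℕ) : ℝ) ^ k := by
    have := Nat.findGreatest_is_greatest (P := fun x : ℕ => α * (x : ℝ) ^ k ≤ v) (n := C * P) (k := x + 1)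
      (by rw [← hx]; omega) (by omega)
    exact not_le.1 this
  refine ⟨x, mem_Ioc.2 ⟨by omega, hx3⟩, ?_⟩
  rw [abs_sub_comm, abs_of_nonneg (by linarith)]
  have h3 := pow_diff_le k (x : ℝ) (Nat.cast_nonneg x)
  have h4 : ((x : ℝ) + 1) ^ (k - 1) ≤ ((C * P : ℕ) : ℝ) ^ (k - 1) := by
    apply pow_le_pow_left₀ (by positivity)
    exact_mod_cast (by omega : x + 1 ≤ C * P)
  have h5 : 0 ≤ ((C * P : ℕ) : ℝ) ^ (k - 1) := by positivity
  push_cast at hx5
  calc v - α * (x : ℝ) ^ k ≤ α * (((x : ℝ) + 1) ^ k - (x : ℝ) ^ k) := by linarith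
    _ ≤ α * (k * ((x : ℝ) + 1) ^ (k - 1)) := mul_le_mul_of_nonneg_left h3 hα.le
    _ ≤ α * (k * ((C * P : ℕ) : ℝ) ^ (k - 1)) := by gcongr
    _ ≤ b * (k * ((C * P : ℕ) : ℝ) ^ (k - 1)) := mul_le_mul_of_nonneg_right hb (by positivity)
    _ = _ := by ring

/-- the number of the solutions at the wide scale -/
lemma N_lower {s : ℕ} (X : Fin s → Finset ℕ) (u : Fin s → ℕ → ℝ) {Y : ℝ} (hY : 0 < Y) (α : Fin s → ℝ) (ν : ℝ)
    (i₀ : Fin s) (x₀ : ℕ) (hx₀ : x₀ ∈ X i₀)
    (hg : ∀ y ∈ Fintype.piFinset X, ∃ x ∈ X i₀, |L u α (Function.update y i₀ x) - ν| ≤ Y) :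
    Real.exp (-Real.pi) * ∏ i ∈ univ.erase i₀, ((X i).card : ℝ) ≤ N X u Y α ν := by
  classical
  choose! g hg1 hg2 using hg
  obtain ⟨D, hD⟩ : ∃ D, D = Fintype.piFinset (Function.update X i₀ {x₀}) := ⟨_, rfl⟩
  have hDX : D ⊆ Fintype.piFinset X := by
    rw [hD]
    refine Fintype.piFinset_subset _ _ fun i => ?_
    by_cases h : i = i₀
    · subst h
      simpa using hx₀
    · simp [Function.update_of_ne h]
  have hval : ∀ y ∈ D, y i₀ = x₀ := by
    intro y hy
    rw [hD, Fintype.mem_piFinset] at hy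
    have := hy i₀
    simpa using this
  have hinj : Set.InjOn (fun y => Function.update y i₀ (g y)) (D : Set (Fin s → ℕ)) := by
    intro y hy z hz h
    simp only at h
    funext i
    by_cases hi : i = i₀
    · rw [hi, hval y hy, hval z hz]
    · have := congrFun h i
      rwa [Function.update_of_ne hi, Function.update_of_ne hi] at this
  have hcard : (D.card : ℝ) = ∏ i ∈ univ.erase i₀, ((X i).card : ℝ) := by
    rw [hD, Fintype.card_piFinset]
    push_cast
    rw [← mul_prod_erase univ (fun i => ((Function.update X i₀ {x₀} i).card : ℝ)) (mem_univ i₀)]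
    simp only [Function.update_self, card_singleton, Nat.cast_one, one_mul]
    refine prod_congr rfl fun i hi => ?_
    rw [mem_erase] at hi
    rw [Function.update_of_ne hi.1]
  rw [← hcard]
  unfold N
  calc Real.exp (-Real.pi) * D.card = ∑ _y ∈ D, Real.exp (-Real.pi) := by
        rw [sum_const, nsmul_eq_mul, mul_comm]
    _ ≤ ∑ y ∈ D, Real.exp (-Real.pi * ((L u α (Function.update y i₀ (g y)) - ν) / Y) ^ 2) := by
        refine sum_le_sum fun y hy => ?_
        rw [Real.exp_le_exp]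
        have h1 := hg2 y (hDX hy)
        have h2 : |(L u α (Function.update y i₀ (g y)) - ν) / Y| ≤ 1 := by
          rw [abs_div, abs_of_pos hY, div_le_one hY]
          exact h1
        have h3 : ((L u α (Function.update y i₀ (g y)) - ν) / Y) ^ 2 ≤ 1 := by
          rw [← sq_abs]
          exact pow_le_one₀ (abs_nonneg _) h2
        have := Real.pi_pos
        nlinarith
    _ = ∑ x ∈ D.image (fun y => Function.update y i₀ (g y)), Real.exp (-Real.pi * ((L u α x - ν) / Y) ^ 2) := by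
        rw [sum_image hinj]
    _ ≤ ∑ x ∈ Fintype.piFinset X, Real.exp (-Real.pi * ((L u α x - ν) / Y) ^ 2) := by
        refine sum_le_sum_of_subset_of_nonneg ?_ fun x _ _ => (Real.exp_pos _).le
        intro x hx
        rw [mem_image] at hx
        obtain ⟨y, hy, rfl⟩ := hx
        rw [Fintype.mem_piFinset]
        intro i
        by_cases hi : i = i₀
        · rw [hi, Function.update_self]
          exact hg1 y (hDX hy)
        · rw [Function.update_of_ne hi]
          exact Fintype.mem_piFinset.1 (hDX hy) i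

lemma L_update {s : ℕ} (u : Fin s → ℕ → ℝ) (α : Fin s → ℝ) (y : Fin s → ℕ) (i₀ : Fin s) (x : ℕ) :
    L u α (Function.update y i₀ x) = α i₀ * u i₀ x + ∑ i ∈ univ.erase i₀, α i * u i (y i) := by
  unfold L
  rw [← add_sum_erase univ _ (mem_univ i₀)]
  congr 1
  · rw [Function.update_self]
  · refine sum_congr rfl fun i hi => ?_
    rw [mem_erase] at hi
    rw [Function.update_of_ne hi.1]

/-- the ranges of the variables -/
def Xs (m : ℕ) (A : Fin (4 + m) → Set ℕ) (C P : ℕ) (i : Fin (4 + m)) : Finset ℕ :=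
  open Classical in
  if i = Fin.castAdd m 0 then Ioc P (C * P) else (Ioc P (2 * P)).filter (fun x => x ∈ A i)

/-- the number of the solutions at the wide scale, for powers -/
lemma N_wide (m k : ℕ) (A : Fin (4 + m) → Set ℕ) (a b E : ℝ) (ha : 0 < a) (C P : ℕ) (hC : 2 ≤ C) (hP : 1 ≤ P)
    (hCa : E < a * (C : ℝ) ^ k) (α : Fin (4 + m) → ℝ) (hα : ∀ i, α i ∈ Set.Icc a b)
    (ν : ℝ) (h1 : (5 + m) * b * 2 ^ k * (P : ℝ) ^ k ≤ ν) (h2 : ν ≤ E * (P : ℝ) ^ k) :
    Real.exp (-Real.pi) * ∏ i ∈ univ.erase (Fin.castAdd m 0), ((Xs m A C P i).card : ℝ) ≤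
      N (Xs m A C P) (fun _ x => (x : ℝ) ^ k) ((b * k * (C : ℝ) ^ (k - 1) + 1) * (P : ℝ) ^ (k - 1)) α ν := by
  classical
  have hb : 0 < b := ha.trans_le ((hα 0).1.trans (hα 0).2)
  have hP0 : (0 : ℝ) < P := by exact_mod_cast hP
  have hP1 : (1 : ℝ) ≤ P := by exact_mod_cast hP
  have hC0 : (0 : ℝ) < C := by exact_mod_cast (by omega : 0 < C)
  have hPk : (0 : ℝ) < (P : ℝ) ^ k := by positivity
  refine N_lower _ _ (by positivity) α ν (Fin.castAdd m 0) (P + 1) ?_ ?_
  · unfold Xs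
    rw [if_pos rfl, mem_Ioc]
    constructor
    · omega
    · nlinarith
  · intro y hy
    rw [Fintype.mem_piFinset] at hy
    have hi0 : Xs m A C P (Fin.castAdd m 0) = Ioc P (C * P) := by
      unfold Xs
      rw [if_pos rfl]
    rw [hi0]
    obtain ⟨R, hR⟩ : ∃ R, R = ∑ i ∈ univ.erase (Fin.castAdd m 0), α i * (y i : ℝ) ^ k := ⟨_, rfl⟩
    have hR0 : 0 ≤ R := by
      rw [hR]
      exact sum_nonneg fun i _ => mul_nonneg (ha.le.trans (hα i).1) (by positivity)
    have hR1 : R ≤ (4 + m) * (b * (2 ^ k * (P : ℝ) ^ k)) := by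
      rw [hR]
      calc ∑ i ∈ univ.erase (Fin.castAdd m 0), α i * (y i : ℝ) ^ k
          ≤ ∑ _i ∈ univ.erase (Fin.castAdd m (0 : Fin 4)), b * (2 ^ k * (P : ℝ) ^ k) := by
            refine sum_le_sum fun i hi => ?_
            rw [mem_erase] at hi
            have hyi := hy i
            unfold Xs at hyi
            rw [if_neg hi.1, mem_filter, mem_Ioc] at hyi
            have h3 : (y i : ℝ) ≤ 2 * P := by exact_mod_cast hyi.1.2
            have h4 : (y i : ℝ) ^ k ≤ (2 * P) ^ k := pow_le_pow_left₀ (Nat.cast_nonneg _) h3 k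
            rw [mul_pow] at h4
            have := (hα i).2
            exact mul_le_mul this h4 (by positivity) hb.le
        _ ≤ (4 + m) * (b * (2 ^ k * (P : ℝ) ^ k)) := by
            rw [sum_const, nsmul_eq_mul]
            refine mul_le_mul_of_nonneg_right ?_ (by positivity)
            have : (univ.erase (Fin.castAdd m (0 : Fin 4))).card ≤ 4 + m := by
              refine (card_le_card (erase_subset _ _)).trans ?_
              simp
            exact_mod_cast this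
    have hα0 := hα (Fin.castAdd m 0)
    have g1 : b * ((P + 1 : ℕ) : ℝ) ^ k ≤ ν - R := by
      have h5 : ((P + 1 : ℕ) : ℝ) ≤ 2 * P := by
        push_cast
        linarith
      have h6 : ((P + 1 : ℕ) : ℝ) ^ k ≤ 2 ^ k * (P : ℝ) ^ k := by
        rw [← mul_pow]
        exact pow_le_pow_left₀ (Nat.cast_nonneg _) h5 k
      have h7 := mul_le_mul_of_nonneg_left h6 hb.le
      have h8 : (5 + m) * b * 2 ^ k * (P : ℝ) ^ k = (4 + m) * (b * (2 ^ k * (P : ℝ) ^ k)) + b * (2 ^ k * (P : ℝ) ^ k) := by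
        ring
      linarith
    have g2 : ν - R < α (Fin.castAdd m 0) * ((C * P : ℕ) : ℝ) ^ k := by
      push_cast
      rw [mul_pow]
      have h9 := mul_lt_mul_of_pos_right hCa hPk
      have h10 : a * ((C : ℝ) ^ k * (P : ℝ) ^ k) ≤ α (Fin.castAdd m 0) * ((C : ℝ) ^ k * (P : ℝ) ^ k) :=
        mul_le_mul_of_nonneg_right hα0.1 (by positivity)
      linarith
    obtain ⟨x, hx, hx'⟩ := greedy k P C (α (Fin.castAdd m 0)) b (ν - R) (ha.trans_le hα0.1) hα0.2 g1 g2
    refine ⟨x, hx, ?_⟩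
    rw [L_update, ← hR]
    have h11 : α (Fin.castAdd m 0) * (x : ℝ) ^ k + R - ν = α (Fin.castAdd m 0) * (x : ℝ) ^ k - (ν - R) := by ring
    rw [h11]
    refine hx'.trans ?_
    push_cast
    rw [mul_pow]
    have h12 : (0 : ℝ) ≤ (P : ℝ) ^ (k - 1) := by positivity
    nlinarith

end

end Pool.Agent.Run7.h927.WG
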