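import Pool.Agent.Run7.h927.WG.D

set_option autoImplicit false

/-! Almost every form: the number of the solutions at the narrow scale. -/

namespace Pool.Agent.Run7.h927.WG
open MeasureTheory Finset Filter

noncomputable section

lemma prod_erase_eq (m : ℕ) (f : Fin (4 + m) → ℝ) : ∏ i ∈ univ.erase (Fin.castAdd m 0), f i =
    (f (Fin.castAdd m 1) * f (Fin.castAdd m 2) * f (Fin.castAdd m 3)) * ∏ j : Fin m, f (Fin.natAdd 4 j) := by
  classical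
  obtain ⟨g, hg⟩ : ∃ g, g = Function.update f (Fin.castAdd m 0) 1 := ⟨_, rfl⟩
  have h1 : ∏ i, g i = ∏ i ∈ univ.erase (Fin.castAdd m 0), f i := by
    rw [← mul_prod_erase univ g (mem_univ (Fin.castAdd m 0)), hg, Function.update_self, one_mul]
    refine prod_congr rfl fun i hi => ?_
    rw [mem_erase] at hi
    rw [Function.update_of_ne hi.1]
  have hne : ∀ i : Fin 4, i ≠ 0 → g (Fin.castAdd m i) = f (Fin.castAdd m i) := by
    intro i hi
    rw [hg, Function.update_of_ne]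
    exact (Fin.castAdd_injective 4 m).ne hi
  have hne' : ∀ j : Fin m, g (Fin.natAdd 4 j) = f (Fin.natAdd 4 j) := by
    intro j
    rw [hg, Function.update_of_ne]
    intro h
    rw [Fin.ext_iff] at h
    simp at h
  rw [← h1, Fin.prod_univ_add, Fin.prod_univ_four, hne 1 (by decide), hne 2 (by decide), hne 3 (by decide)]
  simp only [hne']
  rw [hg, Function.update_self, one_mul]

lemma sqrt_help {p δ C V W g : ℝ} (hp : 1 ≤ p) (hδ : 0 < δ) (hC : 0 ≤ C) (hg : 0 < g)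
    (hW : p ^ (1 + 8 * δ) * g ^ 2 ≤ W) (hV : V ≤ p ^ δ * (C * p) * W) :
    √V ≤ √C * p ^ (-(2 * δ)) * (W / g) := by
  have hp0 : 0 < p := by linarith
  have hW0 : 0 < W := lt_of_lt_of_le (by positivity) hW
  apply Real.sqrt_le_iff.2
  refine ⟨by positivity, hV.trans ?_⟩
  have h1 : (√C * p ^ (-(2 * δ)) * (W / g)) ^ 2 = C * p ^ (-(4 * δ)) * W ^ 2 / g ^ 2 := by
    have h2 : (p ^ (-(2 * δ))) ^ 2 = p ^ (-(4 * δ)) := by
      rw [← Real.rpow_natCast, ← Real.rpow_mul hp0.le]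
      congr 1
      push_cast
      ring
    rw [mul_pow, mul_pow, Real.sq_sqrt hC, h2, div_pow, mul_div_assoc]
  rw [h1, le_div_iff₀ (by positivity)]
  have h3 : p ^ δ * p * g ^ 2 ≤ p ^ (-(4 * δ)) * W := by
    calc p ^ δ * p * g ^ 2 = p ^ (δ + 1) * g ^ 2 := by rw [Real.rpow_add hp0, Real.rpow_one]
      _ ≤ p ^ (-(4 * δ) + (1 + 8 * δ)) * g ^ 2 := by
          refine mul_le_mul_of_nonneg_right ?_ (by positivity)
          exact Real.rpow_le_rpow_of_exponent_le hp (by linarith)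
      _ = p ^ (-(4 * δ)) * (p ^ (1 + 8 * δ) * g ^ 2) := by rw [Real.rpow_add hp0]; ring
      _ ≤ _ := mul_le_mul_of_nonneg_left hW (by positivity)
  calc p ^ δ * (C * p) * W * g ^ 2 = (C * W) * (p ^ δ * p * g ^ 2) := by ring
    _ ≤ (C * W) * (p ^ (-(4 * δ)) * W) := mul_le_mul_of_nonneg_left h3 (by positivity)
    _ = _ := by ring

lemma numer {p δ c₀ B C r W₃ Wm T₀ g : ℝ} {m : ℕ} (hp : 1 ≤ p) (hδ : 0 < δ) (hc : 0 < c₀) (hC : 0 ≤ C)
    (hr : 0 < r) (hg : 0 < g) (h1 : c₀ ^ (4 + m) ≤ p ^ δ) (h2 : c₀ ^ 2 ≤ p ^ δ) (hT0 : 0 ≤ T₀) (hT : T₀ ≤ C * p)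
    (h3 : p ^ (1 + 8 * δ) * g ^ 2 ≤ W₃ * Wm) (h4 : p ^ (1 + 8 * δ) ≤ W₃) (hWm : 0 ≤ Wm) :
    1 / p ^ (-δ) * √(c₀ ^ (4 + m) * T₀ * (W₃ * Wm)) +
      2 / g * (Real.pi * (B * g) ^ 2 * c₀ ^ 2 / g ^ 2 * (√(T₀ * W₃) * (r ^ m * Wm))) ≤
      (√C + 2 * Real.pi * B ^ 2 * √C * r ^ m) * p ^ (-δ) * (W₃ * Wm / g) := by
  have hp0 : 0 < p := by linarith
  have hW3 : 0 < W₃ := lt_of_lt_of_le (by positivity) h4
  have hpd : 1 ≤ p ^ δ := Real.one_le_rpow hp hδ.le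
  have e1 : 1 / p ^ (-δ) = p ^ δ := by rw [Real.rpow_neg hp0.le, one_div, inv_inv]
  have e2 : p ^ δ * p ^ (-(2 * δ)) = p ^ (-δ) := by
    rw [← Real.rpow_add hp0]
    congr 1
    ring
  have hpi := Real.pi_pos
  have t1 : √(c₀ ^ (4 + m) * T₀ * (W₃ * Wm)) ≤ √C * p ^ (-(2 * δ)) * (W₃ * Wm / g) := by
    refine sqrt_help hp hδ hC hg h3 ?_
    refine mul_le_mul_of_nonneg_right ?_ (by positivity)
    exact mul_le_mul h1 hT hT0 (by positivity)
  have t2 : √(T₀ * W₃) ≤ √C * p ^ (-(2 * δ)) * (W₃ / 1) := by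
    refine sqrt_help hp hδ hC one_pos (by simpa using h4) ?_
    refine mul_le_mul_of_nonneg_right ?_ hW3.le
    calc T₀ ≤ C * p := hT
      _ ≤ p ^ δ * (C * p) := by
          have : 0 ≤ C * p := by positivity
          nlinarith
  rw [div_one] at t2
  have t3 : 2 / g * (Real.pi * (B * g) ^ 2 * c₀ ^ 2 / g ^ 2 * (√(T₀ * W₃) * (r ^ m * Wm))) ≤
      2 * Real.pi * B ^ 2 * √C * r ^ m * p ^ (-δ) * (W₃ * Wm / g) := by
    calc 2 / g * (Real.pi * (B * g) ^ 2 * c₀ ^ 2 / g ^ 2 * (√(T₀ * W₃) * (r ^ m * Wm)))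
        = 2 * Real.pi * B ^ 2 * r ^ m * Wm / g * (c₀ ^ 2 * √(T₀ * W₃)) := by field_simp
      _ ≤ 2 * Real.pi * B ^ 2 * r ^ m * Wm / g * (p ^ δ * (√C * p ^ (-(2 * δ)) * W₃)) := by
          refine mul_le_mul_of_nonneg_left ?_ (by positivity)
          exact mul_le_mul h2 t2 (Real.sqrt_nonneg _) (by positivity)
      _ = 2 * Real.pi * B ^ 2 * √C * r ^ m * (p ^ δ * p ^ (-(2 * δ))) * (W₃ * Wm / g) := by ring
      _ = _ := by rw [e2]
  rw [e1]
  calc p ^ δ * √(c₀ ^ (4 + m) * T₀ * (W₃ * Wm)) +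
      2 / g * (Real.pi * (B * g) ^ 2 * c₀ ^ 2 / g ^ 2 * (√(T₀ * W₃) * (r ^ m * Wm)))
      ≤ p ^ δ * (√C * p ^ (-(2 * δ)) * (W₃ * Wm / g)) +
        2 * Real.pi * B ^ 2 * √C * r ^ m * p ^ (-δ) * (W₃ * Wm / g) :=
        add_le_add (mul_le_mul_of_nonneg_left t1 (by positivity)) t3
    _ = √C * (p ^ δ * p ^ (-(2 * δ))) * (W₃ * Wm / g) +
        2 * Real.pi * B ^ 2 * √C * r ^ m * p ^ (-δ) * (W₃ * Wm / g) := by ring
    _ = _ := by rw [e2]; ring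

lemma log_small (K C r : ℝ) (hC : 0 < C) (hr : 0 < r) :
    ∀ᶠ x : ℝ in atTop, K * (1 + Real.log (C * x)) ≤ x ^ r := by
  have h1 : (fun x : ℝ => Real.log x) =o[atTop] (fun x : ℝ => x ^ r) := isLittleO_log_rpow_atTop hr
  have h2 : (fun _x : ℝ => K * (1 + Real.log C)) =o[atTop] (fun x : ℝ => x ^ r) :=
    Asymptotics.isLittleO_const_left.2 (Or.inr (tendsto_norm_atTop_atTop.comp (tendsto_rpow_atTop hr)))
  have h3 := (h2.add (h1.const_mul_left K)).bound one_pos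
  filter_upwards [h3, eventually_gt_atTop 0] with x hx hx0
  rw [one_mul, Real.norm_eq_abs, Real.norm_eq_abs, abs_of_pos (Real.rpow_pos_of_pos hx0 r)] at hx
  rw [Real.log_mul hC.ne' hx0.ne']
  refine le_trans (le_of_eq ?_) ((le_abs_self _).trans hx)
  ring

/-- the number of the elements of the sets in the dyadic range, product over all variables but the first -/
def W (m : ℕ) (A : Fin (4 + m) → Set ℕ) (P : ℕ) : ℝ :=
  open Classical in
  ∏ i ∈ univ.erase (Fin.castAdd m 0), (((Ioc P (2 * P)).filter (fun x => x ∈ A i)).card : ℝ)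

/-- the product over the second to the fourth variable -/
def W3 (m : ℕ) (A : Fin (4 + m) → Set ℕ) (P : ℕ) : ℝ :=
  open Classical in
  (((Ioc P (2 * P)).filter (fun x => x ∈ A (Fin.castAdd m 1))).card : ℝ) *
    ((Ioc P (2 * P)).filter (fun x => x ∈ A (Fin.castAdd m 2))).card *
    ((Ioc P (2 * P)).filter (fun x => x ∈ A (Fin.castAdd m 3))).card

lemma W_eq (m : ℕ) (A : Fin (4 + m) → Set ℕ) (C P : ℕ) :
    ∏ i ∈ univ.erase (Fin.castAdd m 0), ((Xs m A C P i).card : ℝ) = W m A P := by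
  classical
  unfold W
  refine prod_congr rfl fun i hi => ?_
  rw [mem_erase] at hi
  unfold Xs
  rw [if_neg hi.1]

lemma W_nonneg (m : ℕ) (A : Fin (4 + m) → Set ℕ) (P : ℕ) : 0 ≤ W m A P := by
  classical
  unfold W
  positivity

/-- the mean of `Q` for powers -/
lemma mean_pow (m k : ℕ) (hk : 1 ≤ k) (A : Fin (4 + m) → Set ℕ) (a b : ℝ) (hab : a < b) (C P : ℕ)
    (hC : 2 ≤ C) (hP : 1 ≤ P) (δ B : ℝ) (hδ : 0 < δ) (hB : 1 ≤ B)
    (h1 : ((b - a) * (b - a + 1) * (1 + Real.log (C * P))) ≤ (P : ℝ) ^ (δ / (4 + m)))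
    (H1 : (P : ℝ) ^ (1 + 8 * δ) * ((P : ℝ) ^ (k - 1)) ^ 2 ≤ W m A P) (H2 : (P : ℝ) ^ (1 + 8 * δ) ≤ W3 m A P) :
    ∫ α, Q (Xs m A C P) (fun _ x => (x : ℝ) ^ k) ((P : ℝ) ^ (-δ)) (B * (P : ℝ) ^ (k - 1)) α ∂(box (4 + m) a b) ≤
      (√C + 2 * Real.pi * B ^ 2 * √C * (b - a) ^ m) * (P : ℝ) ^ (-δ) * (W m A P / (P : ℝ) ^ (k - 1)) := by
  classical
  have hP0 : (0 : ℝ) < P := by exact_mod_cast hP
  have hP1 : (1 : ℝ) ≤ P := by exact_mod_cast hP
  have hC0 : (0 : ℝ) < C := by exact_mod_cast (by omega : 0 < C)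
  have hg : (0 : ℝ) < (P : ℝ) ^ (k - 1) := by positivity
  have hg1 : (1 : ℝ) ≤ (P : ℝ) ^ (k - 1) := one_le_pow₀ hP1
  have hr : 0 < b - a := by linarith
  have hη : (0 : ℝ) < (P : ℝ) ^ (-δ) := by positivity
  have hη1 : (P : ℝ) ^ (-δ) ≤ 1 := Real.rpow_le_one_of_one_le_of_nonpos hP1 (by linarith)
  have hY : (P : ℝ) ^ (-δ) ≤ B * (P : ℝ) ^ (k - 1) := by nlinarith
  have hL : 0 ≤ Real.log (C * P) := by
    apply Real.log_nonneg
    have : (2 : ℝ) ≤ C := by exact_mod_cast hC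
    nlinarith
  obtain ⟨c₀, hc₀⟩ : ∃ c₀, c₀ = (b - a) * (b - a + 1) * (1 + Real.log ((C * P : ℕ) : ℝ)) := ⟨_, rfl⟩
  have hc0 : 0 < c₀ := by
    rw [hc₀]
    push_cast
    positivity
  have hc1 : c₀ ≤ (P : ℝ) ^ (δ / (4 + m)) := by
    rw [hc₀]
    push_cast
    exact h1
  have hc4 : c₀ ^ (4 + m) ≤ (P : ℝ) ^ δ := by
    calc c₀ ^ (4 + m) ≤ ((P : ℝ) ^ (δ / (4 + m))) ^ (4 + m) := pow_le_pow_left₀ hc0.le hc1 _
      _ = (P : ℝ) ^ δ := by
          rw [← Real.rpow_natCast, ← Real.rpow_mul hP0.le]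
          congr 1
          push_cast
          have : (4 + m : ℝ) ≠ 0 := by positivity
          field_simp
  have hc2 : c₀ ^ 2 ≤ (P : ℝ) ^ δ := by
    calc c₀ ^ 2 ≤ ((P : ℝ) ^ (δ / (4 + m))) ^ 2 := pow_le_pow_left₀ hc0.le hc1 _
      _ = (P : ℝ) ^ (δ / (4 + m) * 2) := by
          rw [← Real.rpow_natCast, ← Real.rpow_mul hP0.le]
          norm_num
      _ ≤ (P : ℝ) ^ δ := by
          apply Real.rpow_le_rpow_of_exponent_le hP1
          rw [div_mul_eq_mul_div, div_le_iff₀ (by positivity)]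
          have : (0 : ℝ) ≤ m := Nat.cast_nonneg m
          nlinarith
  have hXC : ∀ i, Xs m A C P i ⊆ Icc 1 (C * P) := by
    intro i x hx
    unfold Xs at hx
    split_ifs at hx with h
    · rw [mem_Ioc] at hx
      rw [mem_Icc]
      omega
    · rw [mem_filter, mem_Ioc] at hx
      rw [mem_Icc]
      constructor
      · omega
      · nlinarith
  have hXP : ∀ i, ∀ x ∈ Xs m A C P i, P ≤ x := by
    intro i x hx
    unfold Xs at hx
    split_ifs at hx with h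
    · rw [mem_Ioc] at hx
      omega
    · rw [mem_filter, mem_Ioc] at hx
      omega
  have hmean := mean_bound m (Xs m A C P) (fun _ x => (x : ℝ) ^ k) (C * P) hXC ((P : ℝ) ^ (k - 1)) hg
    (fun i x hx y hy => pow_spacing k hk P x y (hXP i x hx) (hXP i y hy)) hη hY hab c₀ hc₀
  refine hmean.trans ?_
  obtain ⟨T, hT⟩ : ∃ T : Fin (4 + m) → ℝ, T = fun i => ((Xs m A C P i).card : ℝ) := ⟨_, rfl⟩
  have hT0 : ∀ i, 0 ≤ T i := by
    intro i
    rw [hT]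
    positivity
  obtain ⟨T₀, hT₀⟩ : ∃ T₀, T₀ = T (Fin.castAdd m 0) := ⟨_, rfl⟩
  obtain ⟨Wm, hWm⟩ : ∃ Wm, Wm = ∏ j : Fin m, T (Fin.natAdd 4 j) := ⟨_, rfl⟩
  obtain ⟨W₃, hW₃⟩ : ∃ W₃, W₃ = T (Fin.castAdd m 1) * T (Fin.castAdd m 2) * T (Fin.castAdd m 3) := ⟨_, rfl⟩
  have hWm0 : 0 ≤ Wm := by rw [hWm]; exact prod_nonneg fun j _ => hT0 _
  have hW30 : 0 ≤ W₃ := by rw [hW₃]; exact mul_nonneg (mul_nonneg (hT0 _) (hT0 _)) (hT0 _)
  have hT00 : 0 ≤ T₀ := by rw [hT₀]; exact hT0 _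
  have hTC : T₀ ≤ C * P := by
    rw [hT₀, hT]
    simp only
    unfold Xs
    rw [if_pos rfl, Nat.card_Ioc]
    exact_mod_cast Nat.sub_le _ _
  have hWW : W m A P = W₃ * Wm := by
    rw [← W_eq m A C P, prod_erase_eq, hW₃, hWm, hT]
  have hW3e : W3 m A P = W₃ := by
    have hne : ∀ i : Fin 4, i ≠ 0 → Fin.castAdd m i ≠ Fin.castAdd m 0 := fun i hi => (Fin.castAdd_injective 4 m).ne hi
    rw [hW₃, hT]
    unfold W3
    simp only
    unfold Xs
    rw [if_neg (hne 1 (by decide)), if_neg (hne 2 (by decide)), if_neg (hne 3 (by decide))]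
  have hprod : ∏ i, T i = T₀ * (W₃ * Wm) := by
    rw [← mul_prod_erase univ T (mem_univ (Fin.castAdd m 0)), prod_erase_eq, ← hT₀, ← hW₃, ← hWm]
  have e1 : ∏ i, √(c₀ * ((Xs m A C P i).card : ℝ)) = √(c₀ ^ (4 + m) * T₀ * (W₃ * Wm)) := by
    rw [← Real.sqrt_prod _ fun i _ => by positivity, prod_mul_distrib, prod_const, card_univ, Fintype.card_fin]
    have : ∏ i, ((Xs m A C P i).card : ℝ) = T₀ * (W₃ * Wm) := by
      rw [← hprod, hT]
    rw [this, mul_assoc]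
  have e2 : (∏ i : Fin 4, √((Xs m A C P (Fin.castAdd m i)).card : ℝ)) *
      ∏ j : Fin m, ((b - a) * ((Xs m A C P (Fin.natAdd 4 j)).card : ℝ)) = √(T₀ * W₃) * ((b - a) ^ m * Wm) := by
    congr 1
    · rw [← Real.sqrt_prod _ fun i _ => by positivity, Fin.prod_univ_four, hT₀, hW₃, hT]
      congr 1
      simp only
      ring
    · rw [prod_mul_distrib, prod_const, card_univ, Fintype.card_fin, hWm, hT]
  rw [e1, e2, hWW]
  exact numer hP1 hδ hc0 hC0.le hr hg hc4 hc2 hT00 hTC (by rw [← hWW]; exact H1) (by rw [← hW3e]; exact H2) hWm0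

end

end Pool.Agent.Run7.h927.WG
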