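import Pool.Agent.Run7.h927.WG.E

set_option autoImplicit false

/-! Almost every form: the number of the solutions of the inequality. -/

namespace Pool.Agent.Run7.h927.WG
open MeasureTheory Finset Filter

noncomputable section

/-- Borel–Cantelli for nonnegative functions -/
lemma bc {Ω : Type*} [MeasurableSpace Ω] (μ : Measure Ω) [IsFiniteMeasure μ] (f : ℕ → Ω → ℝ) (τ : ℕ → ℝ) (K q : ℝ)
    (hq0 : 0 ≤ q) (hq : q < 1) (hf0 : ∀ j ω, 0 ≤ f j ω)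
    (h : ∀ᶠ j in atTop, 0 < τ j ∧ Integrable (f j) μ ∧ ∫ ω, f j ω ∂μ ≤ K * q ^ j * τ j) :
    ∀ᵐ ω ∂μ, ∀ᶠ j in atTop, f j ω < τ j := by
  have h1 : ∀ᶠ j in atTop, ‖μ.real {ω | τ j ≤ f j ω}‖ ≤ K * q ^ j := by
    filter_upwards [h] with j ⟨hτ, hi, hj⟩
    have h2 := mul_meas_ge_le_integral_of_nonneg (μ := μ) (Eventually.of_forall (hf0 j)) hi (τ j)
    rw [Real.norm_eq_abs, abs_of_nonneg measureReal_nonneg]
    have h3 : τ j * μ.real {ω | τ j ≤ f j ω} ≤ τ j * (K * q ^ j) := by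
      calc _ ≤ _ := h2
        _ ≤ _ := hj
        _ = _ := by ring
    exact le_of_mul_le_mul_left h3 hτ
  have h2 : Summable (fun j => μ.real {ω | τ j ≤ f j ω}) :=
    Summable.of_norm_bounded_eventually_nat ((summable_geometric_of_lt_one hq0 hq).mul_left K) h1
  have h3 : ∑' j, μ {ω | τ j ≤ f j ω} ≠ ⊤ := by
    have h4 : ∀ j, μ {ω | τ j ≤ f j ω} = ENNReal.ofReal (μ.real {ω | τ j ≤ f j ω}) := by
      intro j
      rw [measureReal_def, ENNReal.ofReal_toReal (measure_ne_top _ _)]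
    simp only [h4]
    rw [← ENNReal.ofReal_tsum_of_nonneg (fun j => measureReal_nonneg) h2]
    exact ENNReal.ofReal_ne_top
  filter_upwards [ae_eventually_notMem h3] with ω hω
  filter_upwards [hω] with j hj
  exact not_le.1 hj

/-- almost every form: a lower bound at the narrow scale -/
theorem ae_N (m k : ℕ) (hk : 1 ≤ k) (A : Fin (4 + m) → Set ℕ) (a b E : ℝ) (ha : 0 < a) (hab : a < b) (C : ℕ) (hC : 2 ≤ C)
    (hCa : E < a * (C : ℝ) ^ k) (δ : ℝ) (hδ : 0 < δ)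
    (H1 : ∀ᶠ j : ℕ in atTop, ((2 ^ j : ℕ) : ℝ) ^ (1 + 8 * δ) * (((2 ^ j : ℕ) : ℝ) ^ (k - 1)) ^ 2 ≤ W m A (2 ^ j))
    (H2 : ∀ᶠ j : ℕ in atTop, ((2 ^ j : ℕ) : ℝ) ^ (1 + 8 * δ) ≤ W3 m A (2 ^ j)) :
    ∃ c : ℝ, 0 < c ∧ ∀ᵐ α ∂(box (4 + m) a b), ∀ᶠ j : ℕ in atTop, ∀ ν : ℝ,
      (5 + m) * b * 2 ^ k * ((2 ^ j : ℕ) : ℝ) ^ k ≤ ν → ν ≤ E * ((2 ^ j : ℕ) : ℝ) ^ k →
      c * ((2 ^ j : ℕ) : ℝ) ^ (-δ) * (W m A (2 ^ j) / ((2 ^ j : ℕ) : ℝ) ^ (k - 1)) ≤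
        N (Xs m A C (2 ^ j)) (fun _ x => (x : ℝ) ^ k) (((2 ^ j : ℕ) : ℝ) ^ (-δ)) α ν := by
  have hb : 0 < b := ha.trans hab
  have hC0 : (0 : ℝ) < C := by exact_mod_cast (by omega : 0 < C)
  obtain ⟨B, hB⟩ : ∃ B, B = b * k * (C : ℝ) ^ (k - 1) + 1 := ⟨_, rfl⟩
  have hB1 : 1 ≤ B := by
    rw [hB]
    have : 0 ≤ b * k * (C : ℝ) ^ (k - 1) := by positivity
    linarith
  have hB0 : 0 < B := by linarith
  obtain ⟨c, hc⟩ : ∃ c, c = Real.exp (-Real.pi) / (2 * B) := ⟨_, rfl⟩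
  have hc0 : 0 < c := by rw [hc]; positivity
  refine ⟨c, hc0, ?_⟩
  obtain ⟨K, hK⟩ : ∃ K, K = √(C : ℝ) + 2 * Real.pi * B ^ 2 * √(C : ℝ) * (b - a) ^ m := ⟨_, rfl⟩
  have hp0 : ∀ j : ℕ, (0 : ℝ) < ((2 ^ j : ℕ) : ℝ) := fun j => by positivity
  have hp1 : ∀ j : ℕ, (1 : ℝ) ≤ ((2 ^ j : ℕ) : ℝ) := fun j => by exact_mod_cast Nat.one_le_two_pow
  have htend : Tendsto (fun j : ℕ => ((2 ^ j : ℕ) : ℝ)) atTop atTop := by
    have : (fun j : ℕ => ((2 ^ j : ℕ) : ℝ)) = fun j : ℕ => (2 : ℝ) ^ j := by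
      funext j
      push_cast
      rfl
    rw [this]
    exact tendsto_pow_atTop_atTop_of_one_lt one_lt_two
  have hlog := htend.eventually (log_small ((b - a) * (b - a + 1)) C (δ / (4 + m)) hC0 (by positivity))
  have hq : ∀ j : ℕ, ((2 ^ j : ℕ) : ℝ) ^ (-δ) = ((2 : ℝ) ^ (-δ)) ^ j := by
    intro j
    push_cast
    rw [← Real.rpow_natCast, ← Real.rpow_mul (by norm_num), ← Real.rpow_natCast, ← Real.rpow_mul (by norm_num)]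
    congr 1
    ring
  have hbc := bc (box (4 + m) a b)
    (fun j => Q (Xs m A C (2 ^ j)) (fun _ x => (x : ℝ) ^ k) (((2 ^ j : ℕ) : ℝ) ^ (-δ)) (B * ((2 ^ j : ℕ) : ℝ) ^ (k - 1)))
    (fun j => c * (W m A (2 ^ j) / ((2 ^ j : ℕ) : ℝ) ^ (k - 1))) (K / c) ((2 : ℝ) ^ (-δ)) (by positivity)
    (Real.rpow_lt_one_of_one_lt_of_neg one_lt_two (by linarith)) ?_ ?_
  · have hmem : ∀ᵐ α ∂(box (4 + m) a b), α ∈ Set.pi Set.univ fun _ : Fin (4 + m) => Set.Icc a b := by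
      rw [box_eq]
      exact ae_restrict_mem (MeasurableSet.univ_pi fun _ => measurableSet_Icc)
    filter_upwards [hbc, hmem] with α hα hα'
    filter_upwards [hα, H1] with j hj hj1 ν h1 h2
    have hY0 : 0 < B * ((2 ^ j : ℕ) : ℝ) ^ (k - 1) := by
      have := hp0 j
      positivity
    have hη : (0 : ℝ) < ((2 ^ j : ℕ) : ℝ) ^ (-δ) := Real.rpow_pos_of_pos (hp0 j) _
    have hη1 : ((2 ^ j : ℕ) : ℝ) ^ (-δ) ≤ 1 := Real.rpow_le_one_of_one_le_of_nonpos (hp1 j) (by linarith)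
    have hY : ((2 ^ j : ℕ) : ℝ) ^ (-δ) ≤ B * ((2 ^ j : ℕ) : ℝ) ^ (k - 1) := by
      have : (1 : ℝ) ≤ ((2 ^ j : ℕ) : ℝ) ^ (k - 1) := one_le_pow₀ (hp1 j)
      nlinarith
    have h3 := N_wide m k A a b E ha C (2 ^ j) hC Nat.one_le_two_pow hCa α (fun i => hα' i (Set.mem_univ i)) ν h1 h2
    rw [W_eq, ← hB] at h3
    have h4 := compare (Xs m A C (2 ^ j)) (fun _ x => (x : ℝ) ^ k) hη hY α ν
    have h5 := (abs_le.1 h4).1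
    have h6 : ((2 ^ j : ℕ) : ℝ) ^ (-δ) / (B * ((2 ^ j : ℕ) : ℝ) ^ (k - 1)) * (Real.exp (-Real.pi) * W m A (2 ^ j)) ≤
        ((2 ^ j : ℕ) : ℝ) ^ (-δ) / (B * ((2 ^ j : ℕ) : ℝ) ^ (k - 1)) *
        N (Xs m A C (2 ^ j)) (fun _ x => (x : ℝ) ^ k) (B * ((2 ^ j : ℕ) : ℝ) ^ (k - 1)) α ν :=
      mul_le_mul_of_nonneg_left h3 (by positivity)
    have h7 : ((2 ^ j : ℕ) : ℝ) ^ (-δ) / (B * ((2 ^ j : ℕ) : ℝ) ^ (k - 1)) * (Real.exp (-Real.pi) * W m A (2 ^ j)) =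
        2 * (((2 ^ j : ℕ) : ℝ) ^ (-δ) * (c * (W m A (2 ^ j) / ((2 ^ j : ℕ) : ℝ) ^ (k - 1)))) := by
      rw [hc]
      have := hp0 j
      field_simp
    have h8 := mul_le_mul_of_nonneg_left hj.le hη.le
    calc c * ((2 ^ j : ℕ) : ℝ) ^ (-δ) * (W m A (2 ^ j) / ((2 ^ j : ℕ) : ℝ) ^ (k - 1))
        = ((2 ^ j : ℕ) : ℝ) ^ (-δ) * (c * (W m A (2 ^ j) / ((2 ^ j : ℕ) : ℝ) ^ (k - 1))) := by ring
      _ ≤ _ := by linarith
  · intro j α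
    have hη : (0 : ℝ) < ((2 ^ j : ℕ) : ℝ) ^ (-δ) := Real.rpow_pos_of_pos (hp0 j) _
    have hη1 : ((2 ^ j : ℕ) : ℝ) ^ (-δ) ≤ 1 := Real.rpow_le_one_of_one_le_of_nonpos (hp1 j) (by linarith)
    have hY : ((2 ^ j : ℕ) : ℝ) ^ (-δ) ≤ B * ((2 ^ j : ℕ) : ℝ) ^ (k - 1) := by
      have : (1 : ℝ) ≤ ((2 ^ j : ℕ) : ℝ) ^ (k - 1) := one_le_pow₀ (hp1 j)
      nlinarith
    exact Q_nonneg _ _ hη hY α
  · filter_upwards [H1, H2, hlog] with j hj1 hj2 hj3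
    have hη : (0 : ℝ) < ((2 ^ j : ℕ) : ℝ) ^ (-δ) := Real.rpow_pos_of_pos (hp0 j) _
    have hη1 : ((2 ^ j : ℕ) : ℝ) ^ (-δ) ≤ 1 := Real.rpow_le_one_of_one_le_of_nonpos (hp1 j) (by linarith)
    have hY : ((2 ^ j : ℕ) : ℝ) ^ (-δ) ≤ B * ((2 ^ j : ℕ) : ℝ) ^ (k - 1) := by
      have : (1 : ℝ) ≤ ((2 ^ j : ℕ) : ℝ) ^ (k - 1) := one_le_pow₀ (hp1 j)
      nlinarith
    have hW0 : 0 < W m A (2 ^ j) := by
      refine lt_of_lt_of_le ?_ hj1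
      have := hp0 j
      positivity
    refine ⟨by have := hp0 j; positivity, int_Q _ _ hη hY a b, ?_⟩
    have h9 := mean_pow m k hk A a b hab C (2 ^ j) hC Nat.one_le_two_pow δ B hδ hB1 hj3 hj1 hj2
    refine h9.trans (le_of_eq ?_)
    rw [← hK, hq]
    field_simp

end

end Pool.Agent.Run7.h927.WG
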