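import Pool.Agent.Run7.h927.WG.F

set_option autoImplicit false

/-! From the Gaussian weights to the number of the solutions. -/

namespace Pool.Agent.Run7.h927.WG
open MeasureTheory Finset Filter

noncomputable section

lemma gauss_shift {η : ℝ} (hη : 0 < η) (v : ℝ) :
    Integrable (fun t : ℝ => Real.exp (-Real.pi * ((v - t) / η) ^ 2)) ∧
      ∫ t : ℝ, Real.exp (-Real.pi * ((v - t) / η) ^ 2) = η := by
  have hpi := Real.pi_pos
  have h1 : ∀ t : ℝ, Real.exp (-Real.pi * ((v - t) / η) ^ 2) = Real.exp (-(Real.pi / η ^ 2) * (t - v) ^ 2) := by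
    intro t
    congr 1
    rw [div_pow]
    ring
  simp only [h1]
  constructor
  · exact (integrable_exp_neg_mul_sq (b := Real.pi / η ^ 2) (by positivity)).comp_sub_right v
  · rw [integral_sub_right_eq_self (fun t : ℝ => Real.exp (-(Real.pi / η ^ 2) * t ^ 2)) v, integral_gaussian]
    have : Real.pi / (Real.pi / η ^ 2) = η ^ 2 := by field_simp
    rw [this, Real.sqrt_sq hη.le]

/-- from the weighted number to the number -/
lemma count_lower {s : ℕ} (X : Fin s → Finset ℕ) (u : Fin s → ℕ → ℝ) {η V ε : ℝ} (hη : 0 < η) (hε : 0 < ε)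
    (α : Fin s → ℝ) (ν : ℝ) (h : ∀ t ∈ Set.Icc (ν - ε / 2) (ν + ε / 2), η * V ≤ N X u η α t) :
    ε * V ≤ (((Fintype.piFinset X).filter (fun x => |L u α x - ν| ≤ ε)).card : ℝ) +
      ε * (((Fintype.piFinset X).card : ℝ) / η * Real.exp (-(Real.pi / 4) * (ε / η) ^ 2)) := by
  have hpi := Real.pi_pos
  have hlt : ν - ε / 2 ≤ ν + ε / 2 := by linarith
  have hcont : ∀ x : Fin s → ℕ, Continuous (fun t : ℝ => Real.exp (-Real.pi * ((L u α x - t) / η) ^ 2)) := by
    intro x
    fun_prop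
  have h1 : ε * (η * V) ≤ ∫ t in (ν - ε / 2)..(ν + ε / 2), N X u η α t := by
    calc ε * (η * V) = ∫ _t in (ν - ε / 2)..(ν + ε / 2), η * V := by
          rw [intervalIntegral.integral_const, smul_eq_mul]
          ring
      _ ≤ _ := by
          apply intervalIntegral.integral_mono_on hlt
          · exact intervalIntegrable_const
          · unfold N
            exact (continuous_finsetSum _ fun x _ => hcont x).intervalIntegrable _ _
          · exact h
  have h2 : ∫ t in (ν - ε / 2)..(ν + ε / 2), N X u η α t =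
      ∑ x ∈ Fintype.piFinset X, ∫ t in (ν - ε / 2)..(ν + ε / 2), Real.exp (-Real.pi * ((L u α x - t) / η) ^ 2) := by
    unfold N
    exact intervalIntegral.integral_finsetSum fun x _ => (hcont x).intervalIntegrable _ _
  have h3 : ∀ x ∈ Fintype.piFinset X,
      ∫ t in (ν - ε / 2)..(ν + ε / 2), Real.exp (-Real.pi * ((L u α x - t) / η) ^ 2) ≤
        (if |L u α x - ν| ≤ ε then η else 0) + ε * Real.exp (-(Real.pi / 4) * (ε / η) ^ 2) := by
    intro x _
    obtain ⟨g1, g2⟩ := gauss_shift hη (L u α x)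
    split_ifs with hx
    · have h4 : ∫ t in (ν - ε / 2)..(ν + ε / 2), Real.exp (-Real.pi * ((L u α x - t) / η) ^ 2) ≤ η := by
        rw [intervalIntegral.integral_of_le hlt]
        refine le_trans ?_ (le_of_eq g2)
        exact setIntegral_le_integral g1 (Eventually.of_forall fun t => (Real.exp_pos _).le)
      have h5 : 0 ≤ ε * Real.exp (-(Real.pi / 4) * (ε / η) ^ 2) := by positivity
      linarith
    · rw [zero_add]
      calc ∫ t in (ν - ε / 2)..(ν + ε / 2), Real.exp (-Real.pi * ((L u α x - t) / η) ^ 2)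
          ≤ ∫ _t in (ν - ε / 2)..(ν + ε / 2), Real.exp (-(Real.pi / 4) * (ε / η) ^ 2) := by
            apply intervalIntegral.integral_mono_on hlt
            · exact (hcont x).intervalIntegrable _ _
            · exact intervalIntegrable_const
            · intro t ht
              rw [Real.exp_le_exp]
              have h6 : ε < |L u α x - ν| := not_le.1 hx
              have h7 : ε / 2 ≤ |L u α x - t| := by
                have h8 : |L u α x - ν| ≤ |L u α x - t| + |t - ν| := by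
                  have : L u α x - ν = (L u α x - t) + (t - ν) := by ring
                  rw [this]
                  exact abs_add_le _ _
                have h9 : |t - ν| ≤ ε / 2 := by
                  rw [abs_le]
                  constructor
                  · linarith [ht.1]
                  · linarith [ht.2]
                linarith
              have h10 : (ε / 2 / η) ^ 2 ≤ ((L u α x - t) / η) ^ 2 := by
                rw [← sq_abs ((L u α x - t) / η), abs_div, abs_of_pos hη]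
                apply pow_le_pow_left₀ (by positivity)
                gcongr
              have h11 : (ε / 2 / η) ^ 2 = (ε / η) ^ 2 / 4 := by ring
              rw [h11] at h10
              nlinarith
        _ = _ := by
            rw [intervalIntegral.integral_const, smul_eq_mul]
            ring
  have h4 : ε * (η * V) ≤ η * (((Fintype.piFinset X).filter (fun x => |L u α x - ν| ≤ ε)).card : ℝ) +
      ((Fintype.piFinset X).card : ℝ) * (ε * Real.exp (-(Real.pi / 4) * (ε / η) ^ 2)) := by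
    rw [h2] at h1
    refine (h1.trans (sum_le_sum h3)).trans (le_of_eq ?_)
    rw [sum_add_distrib, sum_const, nsmul_eq_mul, ← sum_filter, sum_const, nsmul_eq_mul]
    ring
  refine le_of_mul_le_mul_left ?_ hη
  calc η * (ε * V) = ε * (η * V) := by ring
    _ ≤ _ := h4
    _ = _ := by field_simp

lemma exp_small (C : ℝ) (n : ℕ) (δ c : ℝ) (hδ : 0 < δ) (hc : 0 < c) :
    ∀ᶠ p : ℝ in atTop, (C * p) ^ n / p ^ (-δ) * Real.exp (-(Real.pi / 4) * p ^ δ) ≤ c := by
  have h1 := tendsto_rpow_mul_exp_neg_mul_atTop_nhds_zero (n / δ + 1) (Real.pi / 4) (by have := Real.pi_pos; positivity)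
  have h2 := (h1.const_mul (C ^ n)).comp (tendsto_rpow_atTop hδ)
  rw [mul_zero] at h2
  have h3 := h2.eventually (gt_mem_nhds hc)
  filter_upwards [h3, eventually_gt_atTop 0] with p hp hp0
  refine le_trans (le_of_eq ?_) hp.le
  simp only [Function.comp_apply]
  have h4 : (p ^ δ) ^ ((n : ℝ) / δ + 1) = p ^ n * p ^ δ := by
    rw [← Real.rpow_mul hp0.le, ← Real.rpow_natCast p n, ← Real.rpow_add hp0]
    congr 1
    field_simp
  rw [h4, Real.rpow_neg hp0.le, mul_pow]
  field_simp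

/-- almost every form: the number of the solutions of the inequality -/
theorem ae_count (m k : ℕ) (hk : 1 ≤ k) (A : Fin (4 + m) → Set ℕ) (a b E : ℝ) (ha : 0 < a) (hab : a < b) (C : ℕ) (hC : 2 ≤ C)
    (hCa : E < a * (C : ℝ) ^ k) (δ : ℝ) (hδ : 0 < δ)
    (H1 : ∀ᶠ j : ℕ in atTop, ((2 ^ j : ℕ) : ℝ) ^ (1 + 8 * δ) * (((2 ^ j : ℕ) : ℝ) ^ (k - 1)) ^ 2 ≤ W m A (2 ^ j))
    (H2 : ∀ᶠ j : ℕ in atTop, ((2 ^ j : ℕ) : ℝ) ^ (1 + 8 * δ) ≤ W3 m A (2 ^ j)) :
    ∃ c : ℝ, 0 < c ∧ ∀ᵐ α ∂(box (4 + m) a b), ∀ᶠ j : ℕ in atTop, ∀ ν : ℝ,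
      (5 + m) * b * 2 ^ k * ((2 ^ j : ℕ) : ℝ) ^ k + 1 ≤ ν → ν ≤ E * ((2 ^ j : ℕ) : ℝ) ^ k - 1 →
      ∀ ε : ℝ, ((2 ^ j : ℕ) : ℝ) ^ (-(δ / 2)) ≤ ε → ε ≤ 1 →
      c * ε * (W m A (2 ^ j) / ((2 ^ j : ℕ) : ℝ) ^ (k - 1)) ≤
        (((Fintype.piFinset (Xs m A C (2 ^ j))).filter
          (fun x => |∑ i, α i * (x i : ℝ) ^ k - ν| ≤ ε)).card : ℝ) := by
  obtain ⟨c, hc, hae⟩ := ae_N m k hk A a b E ha hab C hC hCa δ hδ H1 H2
  refine ⟨c / 2, by positivity, ?_⟩
  have hp0 : ∀ j : ℕ, (0 : ℝ) < ((2 ^ j : ℕ) : ℝ) := fun j => by positivity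
  have hp1 : ∀ j : ℕ, (1 : ℝ) ≤ ((2 ^ j : ℕ) : ℝ) := fun j => by exact_mod_cast Nat.one_le_two_pow
  have htend : Tendsto (fun j : ℕ => ((2 ^ j : ℕ) : ℝ)) atTop atTop := by
    have : (fun j : ℕ => ((2 ^ j : ℕ) : ℝ)) = fun j : ℕ => (2 : ℝ) ^ j := by
      funext j
      push_cast
      rfl
    rw [this]
    exact tendsto_pow_atTop_atTop_of_one_lt one_lt_two
  have hexp := htend.eventually (exp_small C (4 + m) δ (c / 2) hδ (by positivity))
  filter_upwards [hae] with α hα
  filter_upwards [hα, H1, hexp] with j hj hj1 hj2 ν h1 h2 ε hε hε1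
  have hp := hp0 j
  obtain ⟨p, hpe⟩ : ∃ p : ℝ, p = ((2 ^ j : ℕ) : ℝ) := ⟨_, rfl⟩
  have hP1 : (1 : ℝ) ≤ p := hpe ▸ hp1 j
  rw [← hpe] at hj hj1 hj2 h1 h2 hε hp ⊢
  obtain ⟨V, hV⟩ : ∃ V, V = W m A (2 ^ j) / p ^ (k - 1) := ⟨_, rfl⟩
  have hg1 : (1 : ℝ) ≤ p ^ (k - 1) := one_le_pow₀ hP1
  have hV1 : 1 ≤ V := by
    rw [hV, one_le_div (by positivity)]
    refine le_trans ?_ hj1
    have h3 : 1 ≤ p ^ (1 + 8 * δ) := Real.one_le_rpow hP1 (by positivity)
    have h4 : p ^ (k - 1) ≤ (p ^ (k - 1)) ^ 2 := by nlinarith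
    nlinarith [sq_nonneg (p ^ (k - 1))]
  rw [← hV] at hj ⊢
  have hε0 : 0 < ε := lt_of_lt_of_le (Real.rpow_pos_of_pos hp _) hε
  have hη : 0 < p ^ (-δ) := Real.rpow_pos_of_pos hp _
  have h5 := count_lower (Xs m A C (2 ^ j)) (fun _ x => (x : ℝ) ^ k) (V := c * V) hη hε0 α ν ?_
  · have h6 : ((Fintype.piFinset (Xs m A C (2 ^ j))).card : ℝ) ≤ (C * p) ^ (4 + m) := by
      rw [Fintype.card_piFinset]
      push_cast
      calc ∏ i, ((Xs m A C (2 ^ j) i).card : ℝ) ≤ ∏ _i : Fin (4 + m), (C * p) := by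
            refine prod_le_prod (fun i _ => Nat.cast_nonneg _) fun i _ => ?_
            unfold Xs
            rw [hpe]
            split_ifs
            · rw [Nat.card_Ioc]
              exact_mod_cast Nat.sub_le _ _
            · classical
              have h7 : ((Ioc (2 ^ j) (2 * 2 ^ j)).filter (fun x => x ∈ A i)).card ≤ C * 2 ^ j := by
                refine (card_filter_le _ _).trans ?_
                rw [Nat.card_Ioc]
                have : 1 * 2 ^ j ≤ C * 2 ^ j := Nat.mul_le_mul_right _ (by omega)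
                omega
              exact_mod_cast h7
        _ = _ := by rw [prod_const, card_univ, Fintype.card_fin]
    have h8 : p ^ δ ≤ (ε / p ^ (-δ)) ^ 2 := by
      have h9 : p ^ (δ / 2) ≤ ε / p ^ (-δ) := by
        rw [le_div_iff₀ hη, ← Real.rpow_add hp]
        have : δ / 2 + -δ = -(δ / 2) := by ring
        rwa [this]
      calc p ^ δ = (p ^ (δ / 2)) ^ 2 := by
            rw [← Real.rpow_natCast, ← Real.rpow_mul hp.le]
            congr 1
            push_cast
            ring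
        _ ≤ _ := pow_le_pow_left₀ (Real.rpow_pos_of_pos hp _).le h9 2
    have h10 : ((Fintype.piFinset (Xs m A C (2 ^ j))).card : ℝ) / p ^ (-δ) *
        Real.exp (-(Real.pi / 4) * (ε / p ^ (-δ)) ^ 2) ≤ c / 2 := by
      refine le_trans ?_ hj2
      refine mul_le_mul ?_ ?_ (Real.exp_pos _).le (by positivity)
      · gcongr
      · rw [Real.exp_le_exp]
        have := Real.pi_pos
        nlinarith
    have h11 : ε * (((Fintype.piFinset (Xs m A C (2 ^ j))).card : ℝ) / p ^ (-δ) *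
        Real.exp (-(Real.pi / 4) * (ε / p ^ (-δ)) ^ 2)) ≤ ε * (c / 2 * V) := by
      refine mul_le_mul_of_nonneg_left (h10.trans ?_) hε0.le
      have : 0 < c / 2 := by positivity
      nlinarith
    have h12 : c / 2 * ε * V = ε * (c * V) - ε * (c / 2 * V) := by ring
    rw [h12]
    unfold L at h5
    linarith
  · intro t ht
    have := hj t (by linarith [ht.1]) (by linarith [ht.2])
    calc p ^ (-δ) * (c * V) = c * p ^ (-δ) * V := by ring
      _ ≤ _ := this

/-- every large number is in a dyadic range -/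
lemma find_scale (k : ℕ) (hk : 1 ≤ k) (A₀ : ℝ) (hA : 0 < A₀) (j₀ : ℕ) (ν : ℝ) (hν : A₀ * ((2 ^ j₀ : ℕ) : ℝ) ^ k + 1 ≤ ν) :
    ∃ j, j₀ ≤ j ∧ A₀ * ((2 ^ j : ℕ) : ℝ) ^ k + 1 ≤ ν ∧ ν ≤ (2 ^ k * A₀ + 2) * ((2 ^ j : ℕ) : ℝ) ^ k - 1 := by
  classical
  have hex : ∃ j, j₀ ≤ j ∧ ν < A₀ * ((2 ^ (j + 1) : ℕ) : ℝ) ^ k + 1 := by
    obtain ⟨n, hn⟩ := exists_nat_gt (ν / A₀)
    refine ⟨max j₀ n, le_max_left _ _, ?_⟩
    rw [div_lt_iff₀ hA] at hn
    have h1 : (n : ℝ) ≤ ((2 ^ (max j₀ n + 1) : ℕ) : ℝ) := by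
      have : n < 2 ^ n := Nat.lt_two_pow_self
      have : 2 ^ n ≤ 2 ^ (max j₀ n + 1) := Nat.pow_le_pow_right (by norm_num) (by omega)
      exact_mod_cast (by omega : n ≤ 2 ^ (max j₀ n + 1))
    have h2 : ((2 ^ (max j₀ n + 1) : ℕ) : ℝ) ≤ ((2 ^ (max j₀ n + 1) : ℕ) : ℝ) ^ k := by
      refine le_self_pow₀ ?_ (by omega)
      exact_mod_cast Nat.one_le_two_pow
    nlinarith
  obtain ⟨h1, h2⟩ := Nat.find_spec hex
  refine ⟨Nat.find hex, h1, ?_, ?_⟩
  · rcases Nat.eq_or_lt_of_le h1 with h3 | h3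
    · rw [← h3]
      exact hν
    · have h4 := Nat.find_min hex (m := Nat.find hex - 1) (by omega)
      rw [not_and] at h4
      have h5 := not_lt.1 (h4 (by omega))
      have h6 : Nat.find hex - 1 + 1 = Nat.find hex := by omega
      rwa [h6] at h5
  · have h3 : ((2 ^ (Nat.find hex + 1) : ℕ) : ℝ) ^ k = 2 ^ k * ((2 ^ Nat.find hex : ℕ) : ℝ) ^ k := by
      rw [← mul_pow]
      congr 1
      push_cast
      ring
    rw [h3] at h2
    have h4 : (1 : ℝ) ≤ ((2 ^ Nat.find hex : ℕ) : ℝ) ^ k := by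
      apply one_le_pow₀
      exact_mod_cast Nat.one_le_two_pow
    linarith

/-- from boxes to all positive coefficients -/
lemma ae_of_boxes (s : ℕ) (p : (Fin s → ℝ) → Prop) (h : ∀ a b : ℝ, 0 < a → a < b → ∀ᵐ α ∂(box s a b), p α) :
    ∀ᵐ α : Fin s → ℝ, (∀ i, 0 < α i) → p α := by
  have h1 : ∀ n : ℕ, ∀ᵐ α : Fin s → ℝ,
      α ∈ (Set.pi Set.univ fun _ : Fin s => Set.Icc (1 / ((n : ℝ) + 2)) ((n : ℝ) + 2)) → p α := by
    intro n
    have h2 := h (1 / ((n : ℝ) + 2)) ((n : ℝ) + 2) (by positivity) (by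
      rw [div_lt_iff₀ (by positivity)]
      have : (0 : ℝ) ≤ n := Nat.cast_nonneg n
      nlinarith)
    rw [box_eq] at h2
    exact (ae_restrict_iff' (MeasurableSet.univ_pi fun _ => measurableSet_Icc)).1 h2
  filter_upwards [ae_all_iff.2 h1] with α hα hpos
  obtain ⟨n, hn⟩ := exists_nat_gt (∑ i, (α i + 1 / α i))
  refine hα n fun i _ => ?_
  have hterm : ∀ i, 0 ≤ α i + 1 / α i := fun i => by have := hpos i; positivity
  have h3 : α i + 1 / α i ≤ ∑ i, (α i + 1 / α i) :=
    single_le_sum (f := fun i => α i + 1 / α i) (fun i _ => hterm i) (mem_univ i)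
  have h4 := hpos i
  have h5 : 0 < 1 / α i := by positivity
  constructor
  · rw [div_le_iff₀ (by positivity), ← div_le_iff₀' h4]
    linarith
  · linarith

end

end Pool.Agent.Run7.h927.WG
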