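import Pool.Agent.Run7.h927.WG.G

set_option autoImplicit false

/-! Almost every form in many variables represents all large numbers. -/

namespace Pool.Agent.Run7.h927.WG
open MeasureTheory Finset Filter

noncomputable section

lemma xs_pos (m : ℕ) (A : Fin (4 + m) → Set ℕ) (C P : ℕ) (i : Fin (4 + m)) (x : ℕ) (hx : x ∈ Xs m A C P i) : 0 < x := by
  classical
  unfold Xs at hx
  split_ifs at hx with h
  · rw [mem_Ioc] at hx
    omega
  · rw [mem_filter, mem_Ioc] at hx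
    omega

lemma xs_mem (m : ℕ) (A : Fin (4 + m) → Set ℕ) (C P : ℕ) (i : Fin (4 + m)) (hi : i ≠ Fin.castAdd m 0) (x : ℕ)
    (hx : x ∈ Xs m A C P i) : x ∈ A i := by
  classical
  unfold Xs at hx
  rw [if_neg hi, mem_filter] at hx
  exact hx.2

lemma xs_le (m : ℕ) (A : Fin (4 + m) → Set ℕ) (C P : ℕ) (hC : 2 ≤ C) (i : Fin (4 + m)) (x : ℕ)
    (hx : x ∈ Xs m A C P i) : P < x ∧ x ≤ C * P := by
  classical
  unfold Xs at hx
  split_ifs at hx with h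
  · rwa [mem_Ioc] at hx
  · rw [mem_filter, mem_Ioc] at hx
    exact ⟨hx.1.1, hx.1.2.trans (Nat.mul_le_mul_right _ hC)⟩

/-- almost every form: the number of the solutions for all large numbers -/
theorem main_sets (m k : ℕ) (hk : 1 ≤ k) (A : Fin (4 + m) → Set ℕ) (δ : ℝ) (hδ : 0 < δ)
    (H1 : ∀ᶠ j : ℕ in atTop, ((2 ^ j : ℕ) : ℝ) ^ (1 + 8 * δ) * (((2 ^ j : ℕ) : ℝ) ^ (k - 1)) ^ 2 ≤ W m A (2 ^ j))
    (H2 : ∀ᶠ j : ℕ in atTop, ((2 ^ j : ℕ) : ℝ) ^ (1 + 8 * δ) ≤ W3 m A (2 ^ j)) :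
    ∀ᵐ α : Fin (4 + m) → ℝ, (∀ i, 0 < α i) → ∃ c : ℝ, 0 < c ∧ ∃ K : ℝ, 1 ≤ K ∧ ∀ j₀ : ℕ, ∀ᶠ ν : ℝ in atTop,
      ∃ j : ℕ, j₀ ≤ j ∧ ν ≤ K * ((2 ^ j : ℕ) : ℝ) ^ k ∧ ((2 ^ j : ℕ) : ℝ) ^ k ≤ K * ν ∧
      ∀ ε : ℝ, ((2 ^ j : ℕ) : ℝ) ^ (-(δ / 2)) ≤ ε → ε ≤ 1 → ∃ F : Finset (Fin (4 + m) → ℕ),
        c * ε * (W m A (2 ^ j) / ((2 ^ j : ℕ) : ℝ) ^ (k - 1)) ≤ (F.card : ℝ) ∧
        ∀ x ∈ F, (∀ i, 0 < x i ∧ (x i : ℝ) ≤ K * ((2 ^ j : ℕ) : ℝ)) ∧ (∀ i, i ≠ Fin.castAdd m 0 → x i ∈ A i) ∧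
          |∑ i, α i * (x i : ℝ) ^ k - ν| ≤ ε := by
  refine ae_of_boxes (4 + m) _ fun a b ha hab => ?_
  have hb : 0 < b := ha.trans hab
  obtain ⟨A₀, hA₀⟩ : ∃ A₀, A₀ = (5 + m) * b * 2 ^ k := ⟨_, rfl⟩
  have hA0 : 0 < A₀ := by rw [hA₀]; positivity
  obtain ⟨E, hE⟩ : ∃ E, E = 2 ^ k * A₀ + 2 := ⟨_, rfl⟩
  have hE0 : 0 < E := by rw [hE]; positivity
  obtain ⟨C', hC'⟩ := exists_nat_gt (E / a)
  obtain ⟨C, hC⟩ : ∃ C, C = C' + 2 := ⟨_, rfl⟩
  have hC2 : 2 ≤ C := by omega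
  have hCa : E < a * (C : ℝ) ^ k := by
    rw [div_lt_iff₀ ha] at hC'
    have h1 : (C' : ℝ) ≤ C := by exact_mod_cast (by omega : C' ≤ C)
    have h2 : (C : ℝ) ≤ (C : ℝ) ^ k := by
      refine le_self_pow₀ ?_ (by omega)
      exact_mod_cast (by omega : 1 ≤ C)
    nlinarith
  obtain ⟨c, hc, hae⟩ := ae_count m k hk A a b E ha hab C hC2 hCa δ hδ H1 H2
  filter_upwards [hae] with α hα
  refine ⟨c, hc, max (max E (1 / A₀)) (max 1 C), le_trans (le_max_left _ _) (le_max_right _ _), fun j₀ => ?_⟩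
  obtain ⟨j₁, hj₁⟩ := eventually_atTop.1 hα
  filter_upwards [eventually_ge_atTop (A₀ * ((2 ^ (max j₀ j₁) : ℕ) : ℝ) ^ k + 1)] with ν hν
  obtain ⟨j, hj1, hj2, hj3⟩ := find_scale k hk A₀ hA0 (max j₀ j₁) ν hν
  have hpk : (0 : ℝ) < ((2 ^ j : ℕ) : ℝ) ^ k := by positivity
  refine ⟨j, le_trans (le_max_left _ _) hj1, ?_, ?_, fun ε hε1 hε2 => ?_⟩
  · have h1 : E ≤ max (max E (1 / A₀)) (max 1 (C : ℝ)) := le_trans (le_max_left _ _) (le_max_left _ _)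
    have h2 := mul_le_mul_of_nonneg_right h1 hpk.le
    rw [← hE] at hj3
    linarith
  · have h1 : 1 / A₀ ≤ max (max E (1 / A₀)) (max 1 (C : ℝ)) := le_trans (le_max_right _ _) (le_max_left _ _)
    have hν0 : 0 < ν := by
      have : 0 < A₀ * ((2 ^ j : ℕ) : ℝ) ^ k := by positivity
      linarith
    have h2 := mul_le_mul_of_nonneg_right h1 hν0.le
    refine le_trans ?_ h2
    rw [one_div, ← div_eq_inv_mul, le_div_iff₀ hA0]
    linarith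
  · refine ⟨_, hj₁ j (le_trans (le_max_right _ _) hj1) ν (by rw [← hA₀]; exact hj2) (by rw [hE]; exact hj3) ε hε1 hε2, ?_⟩
    intro x hx
    rw [mem_filter, Fintype.mem_piFinset] at hx
    refine ⟨fun i => ⟨xs_pos m A C _ i _ (hx.1 i), ?_⟩, fun i hi => xs_mem m A C _ i hi _ (hx.1 i), hx.2⟩
    have h1 : (x i : ℝ) ≤ C * ((2 ^ j : ℕ) : ℝ) := by exact_mod_cast (xs_le m A C _ hC2 i _ (hx.1 i)).2
    refine h1.trans (mul_le_mul_of_nonneg_right ?_ (by positivity))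
    exact le_trans (le_max_right _ _) (le_max_right _ _)

lemma card_full (P : ℕ) : (((Ioc P (2 * P)).filter (fun x => x ∈ (Set.univ : Set ℕ))).card : ℝ) = P := by
  have : (Ioc P (2 * P)).filter (fun x => x ∈ (Set.univ : Set ℕ)) = Ioc P (2 * P) :=
    filter_true_of_mem fun x _ => Set.mem_univ x
  rw [this, Nat.card_Ioc]
  congr 1
  omega

lemma card_erase (m : ℕ) : (univ.erase (Fin.castAdd m (0 : Fin 4))).card = 3 + m := by
  rw [card_erase_of_mem (mem_univ _), card_univ, Fintype.card_fin]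
  omega

lemma W_full (m : ℕ) (P : ℕ) : W m (fun _ => Set.univ) P = (P : ℝ) ^ (3 + m) := by
  classical
  unfold W
  calc _ = ∏ _i ∈ univ.erase (Fin.castAdd m (0 : Fin 4)), (P : ℝ) :=
        prod_congr rfl fun i _ => by convert card_full P
    _ = _ := by rw [prod_const, card_erase]

lemma W3_full (m : ℕ) (P : ℕ) : W3 m (fun _ => Set.univ) P = (P : ℝ) ^ 3 := by
  classical
  have h := card_full P
  unfold W3
  rw [show (P : ℝ) ^ 3 = P * P * P by ring]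
  congr 1
  · congr 1
    · convert h
    · convert h
  · convert h

/-- all variables free -/
theorem main_full (m k : ℕ) (hk : 2 ≤ k) (hm : 2 * k + 1 ≤ 4 + m) :
    ∀ᵐ α : Fin (4 + m) → ℝ, (∀ i, 0 < α i) → ∃ c : ℝ, 0 < c ∧ ∀ᶠ ν : ℝ in atTop,
      ∀ ε : ℝ, ν ^ (-(1 / (20 * k)) : ℝ) ≤ ε → ε ≤ 1 → ∃ F : Finset (Fin (4 + m) → ℕ),
        c * ε * ν ^ (((4 + m : ℕ) : ℝ) / k - 1) ≤ (F.card : ℝ) ∧
        ∀ x ∈ F, (∀ i, 0 < x i) ∧ |∑ i, α i * (x i : ℝ) ^ k - ν| ≤ ε := by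
  have hk0 : (0 : ℝ) < k := by exact_mod_cast (by omega : 0 < k)
  have hp1 : ∀ j : ℕ, (1 : ℝ) ≤ ((2 ^ j : ℕ) : ℝ) := fun j => by exact_mod_cast Nat.one_le_two_pow
  have hmk : (2 * (k : ℝ) + 1) ≤ 4 + m := by exact_mod_cast hm
  have main := main_sets m k (by omega) (fun _ => Set.univ) (1 / 8) (by norm_num) ?_ ?_
  · filter_upwards [main] with α hα hpos
    obtain ⟨c, hc, K, hK, h⟩ := hα hpos
    obtain ⟨σ, hσ⟩ : ∃ σ : ℝ, σ = ((4 + m : ℕ) : ℝ) / k - 1 := ⟨_, rfl⟩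
    have hσ0 : 0 < σ := by
      rw [hσ, sub_pos, one_lt_div hk0]
      push_cast
      linarith
    -- the scale is large enough
    have hKρ : ∃ j₀ : ℕ, ∀ j ≥ j₀, K ^ (1 / (20 * k) : ℝ) ≤ ((2 ^ j : ℕ) : ℝ) ^ (1 / 80 : ℝ) := by
      have htend : Tendsto (fun j : ℕ => ((2 ^ j : ℕ) : ℝ)) atTop atTop := by
        have : (fun j : ℕ => ((2 ^ j : ℕ) : ℝ)) = fun j : ℕ => (2 : ℝ) ^ j := by
          funext j
          push_cast
          rfl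
        rw [this]
        exact tendsto_pow_atTop_atTop_of_one_lt one_lt_two
      have := ((tendsto_rpow_atTop (by norm_num : (0 : ℝ) < 1 / 80)).comp htend).eventually
        (eventually_ge_atTop (K ^ (1 / (20 * k) : ℝ)))
      exact eventually_atTop.1 this
    obtain ⟨j₀, hj₀⟩ := hKρ
    refine ⟨c / K ^ σ, by positivity, ?_⟩
    filter_upwards [h j₀, eventually_gt_atTop 0] with ν hν hν0 ε hε1 hε2
    obtain ⟨j, hj, hν1, hν2, hF⟩ := hν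
    have hp := hp1 j
    have hp0 : (0 : ℝ) < ((2 ^ j : ℕ) : ℝ) := by linarith
    obtain ⟨p, hpe⟩ : ∃ p : ℝ, p = ((2 ^ j : ℕ) : ℝ) := ⟨_, rfl⟩
    have hjK := hj₀ j hj
    rw [← hpe] at hν1 hν2 hF hp hp0 hjK
    have hεp : p ^ (-((1 / 8 : ℝ) / 2)) ≤ ε := by
      refine le_trans ?_ hε1
      -- ν ^ (-ρ) ≥ (K p^k) ^ (-ρ)
      have h1 : (K * p ^ k) ^ (-(1 / (20 * k)) : ℝ) ≤ ν ^ (-(1 / (20 * k)) : ℝ) := by
        apply Real.rpow_le_rpow_of_nonpos hν0 hν1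
        rw [neg_nonpos]
        positivity
      refine le_trans ?_ h1
      rw [Real.mul_rpow (by linarith) (by positivity), Real.rpow_neg (by linarith : (0 : ℝ) ≤ K) (1 / (20 * k))]
      have h2 : (p ^ k) ^ (-(1 / (20 * k)) : ℝ) = p ^ (-(1 / 20) : ℝ) := by
        rw [← Real.rpow_natCast, ← Real.rpow_mul hp0.le]
        congr 1
        field_simp
      rw [h2, inv_mul_eq_div, le_div_iff₀ (by positivity)]
      calc p ^ (-((1 / 8 : ℝ) / 2)) * K ^ (1 / (20 * k) : ℝ) ≤ p ^ (-((1 / 8 : ℝ) / 2)) * p ^ (1 / 80 : ℝ) :=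
            mul_le_mul_of_nonneg_left hjK (by positivity)
        _ = p ^ (-(1 / 20) : ℝ) := by
            rw [← Real.rpow_add hp0]
            norm_num
    obtain ⟨F, hF1, hF2⟩ := hF ε hεp hε2
    refine ⟨F, le_trans ?_ hF1, fun x hx => ⟨fun i => ((hF2 x hx).1 i).1, (hF2 x hx).2.2⟩⟩
    have hε0 : 0 < ε := lt_of_lt_of_le (by positivity) hεp
    rw [W_full, ← hpe]
    have h3 : ν ^ σ ≤ K ^ σ * (p ^ (3 + m) / p ^ (k - 1)) := by
      calc ν ^ σ ≤ (K * p ^ k) ^ σ := Real.rpow_le_rpow hν0.le hν1 hσ0.le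
        _ = K ^ σ * (p ^ k) ^ σ := Real.mul_rpow (by linarith) (by positivity)
        _ = K ^ σ * (p ^ (3 + m) / p ^ (k - 1)) := by
            congr 1
            rw [div_eq_mul_inv, ← pow_sub₀ p hp0.ne' (by omega), ← Real.rpow_natCast, ← Real.rpow_mul hp0.le, ← Real.rpow_natCast]
            congr 1
            rw [hσ, Nat.cast_sub (by omega), Nat.cast_sub (by omega)]
            push_cast
            field_simp
            ring
    rw [← hσ]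
    calc c / K ^ σ * ε * ν ^ σ ≤ c / K ^ σ * ε * (K ^ σ * (p ^ (3 + m) / p ^ (k - 1))) :=
          mul_le_mul_of_nonneg_left h3 (by positivity)
      _ = _ := by
          have : 0 < K ^ σ := by positivity
          field_simp
  · refine Eventually.of_forall fun j => ?_
    rw [W_full]
    have hp0 : (0 : ℝ) < ((2 ^ j : ℕ) : ℝ) := by have := hp1 j; linarith
    have e1 : (1 : ℝ) + 8 * (1 / 8) = ((2 : ℕ) : ℝ) := by norm_num
    rw [e1, Real.rpow_natCast, ← pow_mul, ← pow_add]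
    exact pow_le_pow_right₀ (hp1 j) (by omega)
  · refine Eventually.of_forall fun j => ?_
    rw [W3_full]
    have e1 : (1 : ℝ) + 8 * (1 / 8) = ((2 : ℕ) : ℝ) := by norm_num
    rw [e1, Real.rpow_natCast]
    exact pow_le_pow_right₀ (hp1 j) (by omega)

end

end Pool.Agent.Run7.h927.WG
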